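import Pool.Agent.H814.LD.Defs

/-!
# Active members of local realizers
-/

set_option autoImplicit false

namespace Pool.Agent.H814.LD

open Classical in
theorem act_enc {m D : ℕ} (S : Finset (Fin m)) (hS : S.card ≤ D) :
    ∃ e : Fin m → Fin (D + 1), ∀ k ∈ S, ∀ l ∈ S, e k = e l → k = l := by
  refine ⟨fun k => if h : k ∈ S then Fin.castLE (hS.trans (Nat.le_succ D)) (S.equivFin ⟨k, h⟩)
    else 0, fun k hk l hl h => ?_⟩
  simp only [dif_pos hk, dif_pos hl] at h
  have h1 := S.equivFin.injective (Fin.castLE_injective _ h)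
  exact congrArg Subtype.val h1

theorem t_act (h : S_BOX) : S_ACT := by
  intro A _ D
  classical
  obtain ⟨N₀, hN₀⟩ := h A (A → Fin (D + 1)) inferInstance inferInstance
  refine ⟨N₀, fun N hN I E β _ f m R hR hfr i => ?_⟩
  have hinc : ∀ (v : A → Fin N) (a : A), ∃ k, (R k).Before (f (.y i a (v a))) (f (.x i v)) := by
    intro v a
    refine hR.incomp _ _ (fun hle => ?_) fun hle => ?_
    · exact Pos.yx i i a (v a) v (f.le_iff_le.1 hle)
    · rcases (Pos.xy i i v a (v a)).1 (f.le_iff_le.1 hle) with h1 | h1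
      · exact lt_irrefl _ h1.2
      · exact h1.1 rfl
  choose F hF using hinc
  have henc : ∀ b : β, ∃ e : Fin m → Fin (D + 1), ∀ k, b ∈ (R k).carrier → ∀ l,
      b ∈ (R l).carrier → e k = e l → k = l := by
    intro b
    obtain ⟨e, he⟩ := act_enc (D := D) (Finset.univ.filter fun k => b ∈ (R k).carrier) (hfr b)
    refine ⟨e, fun k hk l hl h1 => he k ?_ l ?_ h1⟩
    · exact Finset.mem_filter.2 ⟨Finset.mem_univ _, hk⟩
    · exact Finset.mem_filter.2 ⟨Finset.mem_univ _, hl⟩
  choose enc henc using henc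
  obtain ⟨lo, hi, hlt, hmono⟩ := hN₀ fun u a =>
    enc (f (.y i a (Fin.castLE hN (u a)))) (F (fun a => Fin.castLE hN (u a)) a)
  have key : ∀ a : A, ∀ u : A → Fin N₀, (∀ b, u b = lo b ∨ u b = hi b) → u a = hi a →
      F (fun a => Fin.castLE hN (u a)) a = F (fun a => Fin.castLE hN (hi a)) a := by
    intro a u hu hua
    have h1 := congrFun (hmono u hi hu fun b => Or.inr rfl) a
    simp only [hua] at h1
    have h2 := hF (fun a => Fin.castLE hN (u a)) a
    have h3 := hF (fun a => Fin.castLE hN (hi a)) a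
    simp only [hua] at h2
    exact henc _ _ h2.1 _ h3.1 h1
  refine ⟨fun a => Fin.castLE hN (hi a), fun a => F (fun a => Fin.castLE hN (hi a)) a, ?_,
    fun a => hF _ a⟩
  intro a b hab
  simp only at hab
  by_contra hne
  have hbox : ∀ a : A, ∀ c, Function.update lo a (hi a) c = lo c ∨
      Function.update lo a (hi a) c = hi c := by
    intro a c
    by_cases hc : c = a
    · subst hc
      rw [Function.update_self]
      exact Or.inr rfl
    · rw [Function.update_of_ne hc]
      exact Or.inl rfl
  have k1 := key a (Function.update lo a (hi a)) (hbox a) (Function.update_self ..)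
  have k2 := key b (Function.update lo b (hi b)) (hbox b) (Function.update_self ..)
  have b1 := hF (fun c => Fin.castLE hN (Function.update lo a (hi a) c)) a
  have b2 := hF (fun c => Fin.castLE hN (Function.update lo b (hi b) c)) b
  simp only [k1, Function.update_self] at b1
  simp only [k2, Function.update_self] at b2
  rw [← hab] at b2
  have l1 : f (.x i fun c => Fin.castLE hN (Function.update lo a (hi a) c)) <
      f (.y i b (Fin.castLE hN (hi b))) := by
    refine f.lt_iff_lt.2 (lt_of_le_not_ge ((Pos.xy ..).2 (Or.inl ⟨rfl, ?_⟩)) (Pos.yx _ _ _ _ _))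
    rw [Function.update_of_ne (Ne.symm hne)]
    exact hlt b
  have l2 : f (.x i fun c => Fin.castLE hN (Function.update lo b (hi b) c)) <
      f (.y i a (Fin.castLE hN (hi a))) := by
    refine f.lt_iff_lt.2 (lt_of_le_not_ge ((Pos.xy ..).2 (Or.inl ⟨rfl, ?_⟩)) (Pos.yx _ _ _ _ _))
    rw [Function.update_of_ne hne]
    exact hlt a
  have m1 := (R _).mono _ b1.2.1 _ b2.1 l1
  have m2 := (R _).mono _ b2.2.1 _ b1.1 l2
  have m3 := b1.2.2
  have m4 := b2.2.2
  omega

end Pool.Agent.H814.LD
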