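import Pool.Agent.H814.LD.Defs

/-!
# Local dimension: monochromatic boxes
-/

set_option autoImplicit false

namespace Pool.Agent.H814.LD

namespace Box

/-- the version for colourings of vectors of natural numbers -/
theorem boxNat (C : Type) [Fintype C] : ∀ k : ℕ, ∃ N : ℕ, 1 ≤ N ∧ ∀ f : (Fin k → ℕ) → C,
    ∃ lo hi : Fin k → ℕ, (∀ a, lo a < hi a) ∧ (∀ a, hi a < N) ∧
      ∀ v w : Fin k → ℕ, (∀ a, v a = lo a ∨ v a = hi a) → (∀ a, w a = lo a ∨ w a = hi a) →
        f v = f w := by
  classical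
  intro k
  induction k with
  | zero =>
    refine ⟨1, le_rfl, fun f => ⟨fun _ => 0, fun _ => 1, fun a => a.elim0, fun a => a.elim0, ?_⟩⟩
    intro v w _ _
    have : v = w := funext fun a => a.elim0
    rw [this]
  | succ k ih =>
    obtain ⟨N, hN, h⟩ := ih
    refine ⟨max N (Fintype.card ((Fin k → Fin N) → C) + 1), le_trans hN (le_max_left _ _), ?_⟩
    intro f
    obtain ⟨a, b, hab, hs⟩ : ∃ a b : ℕ, (a < b ∧ b < Fintype.card ((Fin k → Fin N) → C) + 1) ∧
        ∀ u : Fin k → Fin N, f (Fin.cons a fun i => (u i : ℕ)) =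
          f (Fin.cons b fun i => (u i : ℕ)) := by
      obtain ⟨a, b, hne, he⟩ := Fintype.exists_ne_map_eq_of_card_lt
        (fun (a : Fin (Fintype.card ((Fin k → Fin N) → C) + 1)) (u : Fin k → Fin N) =>
          f (Fin.cons (a : ℕ) fun i => (u i : ℕ))) (by rw [Fintype.card_fin]; omega)
      have he' : ∀ u : Fin k → Fin N, f (Fin.cons (a : ℕ) fun i => (u i : ℕ)) =
          f (Fin.cons (b : ℕ) fun i => (u i : ℕ)) := fun u => congrFun he u
      have hne' : (a : ℕ) ≠ b := fun h2 => hne (Fin.ext h2)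
      rcases lt_or_gt_of_ne hne' with h2 | h2
      · exact ⟨a, b, ⟨h2, b.2⟩, he'⟩
      · exact ⟨b, a, ⟨h2, a.2⟩, fun u => (he' u).symm⟩
    obtain ⟨lo, hi, h1, h2, h3⟩ := h fun u => f (Fin.cons a u)
    have key : ∀ v : Fin (k + 1) → ℕ,
        (∀ i, v i = (Fin.cons a lo : Fin (k + 1) → ℕ) i ∨ v i = (Fin.cons b hi : Fin (k + 1) → ℕ) i) →
        f v = f (Fin.cons a (Fin.tail v)) ∧ ∀ i, Fin.tail v i = lo i ∨ Fin.tail v i = hi i := by
      intro v hv
      have ht : ∀ i, Fin.tail v i = lo i ∨ Fin.tail v i = hi i := by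
        intro i
        have h4 := hv i.succ
        rw [Fin.cons_succ, Fin.cons_succ] at h4
        exact h4
      refine ⟨?_, ht⟩
      have hlt : ∀ i, Fin.tail v i < N := by
        intro i
        rcases ht i with h4 | h4
        · rw [h4]
          exact (h1 i).trans (h2 i)
        · rw [h4]
          exact h2 i
      have h5 := hs fun i => ⟨Fin.tail v i, hlt i⟩
      have h0 := hv 0
      rw [Fin.cons_zero, Fin.cons_zero] at h0
      have hcons : (Fin.cons (v 0) (Fin.tail v) : Fin (k + 1) → ℕ) = v := Fin.cons_self_tail v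
      rcases h0 with h4 | h4
      · rw [h4] at hcons
        rw [hcons]
      · rw [h4] at hcons
        have h6 : f (Fin.cons a (Fin.tail v)) = f (Fin.cons b (Fin.tail v)) := h5
        rw [h6, hcons]
    refine ⟨Fin.cons a lo, Fin.cons b hi, ?_, ?_, ?_⟩
    · intro i
      refine Fin.cases ?_ (fun j => ?_) i
      · rw [Fin.cons_zero, Fin.cons_zero]
        exact hab.1
      · rw [Fin.cons_succ, Fin.cons_succ]
        exact h1 j
    · intro i
      refine Fin.cases ?_ (fun j => ?_) i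
      · rw [Fin.cons_zero]
        exact hab.2.trans_le (le_max_right _ _)
      · rw [Fin.cons_succ]
        exact (h2 j).trans_le (le_max_left _ _)
    · intro v w hv hw
      obtain ⟨e1, t1⟩ := key v hv
      obtain ⟨e2, t2⟩ := key w hw
      rw [e1, e2]
      exact h3 _ _ t1 t2

end Box

theorem t_box : S_BOX := by
  classical
  intro A C _ _
  obtain ⟨N, hN, h⟩ := Box.boxNat C (Fintype.card A)
  refine ⟨N, fun f => ?_⟩
  have e : A ≃ Fin (Fintype.card A) := Fintype.equivFin A
  obtain ⟨lo, hi, h1, h2, h3⟩ := h fun v => f fun a => ⟨v (e a) % N, Nat.mod_lt _ (by omega)⟩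
  refine ⟨fun a => ⟨lo (e a), (h1 _).trans (h2 _)⟩, fun a => ⟨hi (e a), h2 _⟩, fun a => ?_, ?_⟩
  · exact Fin.mk_lt_mk.2 (h1 (e a))
  · intro v w hv hw
    have hf : ∀ u : A → Fin N, (fun a => (⟨((fun i => (u (e.symm i) : ℕ)) (e a)) % N,
        Nat.mod_lt _ (by omega)⟩ : Fin N)) = u := by
      intro u
      funext a
      apply Fin.ext
      change (u (e.symm (e a)) : ℕ) % N = u a
      rw [e.symm_apply_apply, Nat.mod_eq_of_lt (u a).2]
    have hbox : ∀ u : A → Fin N, (∀ a, u a = ⟨lo (e a), (h1 _).trans (h2 _)⟩ ∨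
        u a = ⟨hi (e a), h2 _⟩) → ∀ i, (u (e.symm i) : ℕ) = lo i ∨ (u (e.symm i) : ℕ) = hi i := by
      intro u hu i
      rcases hu (e.symm i) with h4 | h4
      · left
        rw [h4, e.apply_symm_apply]
      · right
        rw [h4, e.apply_symm_apply]
    have h5 := h3 (fun i => (v (e.symm i) : ℕ)) (fun i => (w (e.symm i) : ℕ)) (hbox v hv) (hbox w hw)
    have h6 : f (fun a => (⟨((fun i => (v (e.symm i) : ℕ)) (e a)) % N,
        Nat.mod_lt _ (by omega)⟩ : Fin N)) = f (fun a => (⟨((fun i => (w (e.symm i) : ℕ)) (e a)) % N,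
        Nat.mod_lt _ (by omega)⟩ : Fin N)) := h5
    rw [hf v, hf w] at h6
    exact h6

end Pool.Agent.H814.LD
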