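import Pool.Agent.H814.LD.Defs

/-!
# Components of a disjoint union of posets
-/

set_option autoImplicit false

namespace Pool.Agent.H814.LD

namespace COMPN

variable {α β : Type} [PartialOrder α] [PartialOrder β]

/-- comparable points of a disjoint union are on the same side -/
theorem adj_side {p q : α ⊕ β} (h : (cg (α ⊕ β)).Adj p q) : p.isLeft = q.isLeft := by
  have h' : p < q ∨ q < p := h
  rcases p with a | b <;> rcases q with c | e
  · rfl
  · rcases h' with h' | h'
    · exact absurd h' Sum.not_inl_lt_inr
    · exact absurd h' Sum.not_inr_lt_inl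
  · rcases h' with h' | h'
    · exact absurd h' Sum.not_inr_lt_inl
    · exact absurd h' Sum.not_inl_lt_inr
  · rfl

/-- the points of a component are on the same side -/
theorem reach_side {p q : α ⊕ β} (h : (cg (α ⊕ β)).Reachable p q) : p.isLeft = q.isLeft := by
  obtain ⟨w⟩ := h
  induction w with
  | nil => rfl
  | cons hadj _ ih => exact (adj_side hadj).trans ih

theorem mem_side {p : α ⊕ β} (q : ((cg (α ⊕ β)).connectedComponentMk p).supp) :
    q.1.isLeft = p.isLeft :=
  reach_side (SimpleGraph.ConnectedComponent.exact ((SimpleGraph.ConnectedComponent.mem_supp_iff _ _).1 q.2))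

end COMPN

/-- **COMP.** Components of a disjoint union. -/
theorem t_comp (h : S_RES) : S_COMP := by
  intro α β _ _ d hα hβ C
  induction C using SimpleGraph.ConnectedComponent.ind with
  | _ p =>
    rcases p with a | b
    · have h1 : ∀ q : ((cg (α ⊕ β)).connectedComponentMk (Sum.inl a)).supp, ∃ c : α, q.1 = Sum.inl c :=
        fun q => Sum.isLeft_iff.1 (COMPN.mem_side q)
      choose f hf using h1
      refine h _ α _ _ (OrderEmbedding.ofMapLEIff f fun q r => ?_) d hα
      have e : q ≤ r ↔ q.1 ≤ r.1 := Iff.rfl
      rw [e, hf q, hf r, Sum.inl_le_inl_iff]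
    · have h1 : ∀ q : ((cg (α ⊕ β)).connectedComponentMk (Sum.inr b)).supp, ∃ c : β, q.1 = Sum.inr c := by
        intro q
        have h2 : q.1.isLeft = false := COMPN.mem_side q
        rw [← Sum.isRight_iff]
        rwa [Sum.isLeft_eq_false] at h2
      choose f hf using h1
      refine h _ β _ _ (OrderEmbedding.ofMapLEIff f fun q r => ?_) d hβ
      have e : q ≤ r ↔ q.1 ≤ r.1 := Iff.rfl
      rw [e, hf q, hf r, Sum.inr_le_inr_iff]

end Pool.Agent.H814.LD
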