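import Mathlib

/-!
# Local dimension of disconnected posets: definitions and statements of the lemmas
-/

set_option autoImplicit false

namespace Pool.Agent.H814.LD

/-- A partial linear extension of the poset `α`: a linear order on the finite set `carrier`, given by
the positions `rank x` of its elements, such that `x < y` in `α` implies that `x` comes before `y`. -/
structure PLE (α : Type) [PartialOrder α] where
  carrier : Finset α
  rank : α → ℕ
  inj : ∀ x ∈ carrier, ∀ y ∈ carrier, rank x = rank y → x = y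
  mono : ∀ x ∈ carrier, ∀ y ∈ carrier, x < y → rank x < rank y

/-- `L` contains `x` and `y`, and `x` comes before `y` -/
def PLE.Before {α : Type} [PartialOrder α] (L : PLE α) (x y : α) : Prop :=
  x ∈ L.carrier ∧ y ∈ L.carrier ∧ L.rank x < L.rank y

/-- local realizers -/
structure IsLocalRealizer {α : Type} [PartialOrder α] {m : ℕ} (R : Fin m → PLE α) : Prop where
  comp : ∀ x y : α, x < y → ∃ k, (R k).Before x y
  incomp : ∀ x y : α, ¬ x ≤ y → ¬ y ≤ x → ∃ k, (R k).Before x y

open Classical in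
/-- the number of members of the family `R` which contain `x` -/
noncomputable def freq {α : Type} [PartialOrder α] {m : ℕ} (R : Fin m → PLE α) (x : α) : ℕ :=
  (Finset.univ.filter fun k => x ∈ (R k).carrier).card

/-- there is a local realizer in which each point has frequency at most `d` -/
def HasLR (α : Type) [PartialOrder α] (d : ℕ) : Prop :=
  ∃ (m : ℕ) (R : Fin m → PLE α), IsLocalRealizer R ∧ ∀ x, freq R x ≤ d

/-- the local dimension -/
noncomputable def ldim (α : Type) [PartialOrder α] : ℕ := sInf {d | HasLR α d}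

/-- the comparability graph -/
def cg (α : Type) [PartialOrder α] : SimpleGraph α where
  Adj x y := x < y ∨ y < x
  symm := ⟨fun _ _ h => h.symm⟩
  loopless := ⟨fun x h => by
    rcases h with h | h
    · exact lt_irrefl x h
    · exact lt_irrefl x h⟩

/-! ### The posets -/

/-- `x i v` with `v : A → Fin N`, and `y i a q` with `q : Fin N` -/
inductive Pos (I A : Type) (N : ℕ) (E : I → I → A → Prop) : Type
  | x : I → (A → Fin N) → Pos I A N E
  | y : I → A → Fin N → Pos I A N E

/-- the order: the blocks `x i _` carry the product order, `y i a _` are chains, `x i v < y i a q` iff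
`v a < q`, and, for `i ≠ j`, `x i _ < y j a _` iff `E i j a` -/
def Pos.Le {I A : Type} {N : ℕ} {E : I → I → A → Prop} : Pos I A N E → Pos I A N E → Prop
  | .x i v, .x j w => i = j ∧ ∀ a, v a ≤ w a
  | .x i v, .y j a q => (i = j ∧ v a < q) ∨ (i ≠ j ∧ E i j a)
  | .y i a q, .y j b r => i = j ∧ a = b ∧ q ≤ r
  | .y _ _ _, .x _ _ => False

instance {I A : Type} {N : ℕ} {E : I → I → A → Prop} : PartialOrder (Pos I A N E) where
  le := Pos.Le
  le_refl p := by
    cases p with
    | x i v => exact ⟨rfl, fun a => le_rfl⟩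
    | y i a q => exact ⟨rfl, rfl, le_rfl⟩
  le_trans p q r h1 h2 := by
    cases p with
    | x i v =>
      cases q with
      | x j w =>
        obtain ⟨rfl, h1⟩ := h1
        cases r with
        | x k u => exact ⟨h2.1, fun a => (h1 a).trans (h2.2 a)⟩
        | y k a t =>
          rcases h2 with ⟨h3, h4⟩ | h3
          · exact Or.inl ⟨h3, (h1 a).trans_lt h4⟩
          · exact Or.inr h3
      | y j a t =>
        cases r with
        | x k u => exact h2.elim
        | y k b s =>
          obtain ⟨rfl, rfl, h3⟩ := h2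
          rcases h1 with ⟨h4, h5⟩ | h4
          · exact Or.inl ⟨h4, h5.trans_le h3⟩
          · exact Or.inr h4
    | y i a t =>
      cases q with
      | x j w => exact h1.elim
      | y j b s =>
        cases r with
        | x k u => exact h2.elim
        | y k c u =>
          exact ⟨h1.1.trans h2.1, h1.2.1.trans h2.2.1, h1.2.2.trans h2.2.2⟩
  le_antisymm p q h1 h2 := by
    cases p with
    | x i v =>
      cases q with
      | x j w =>
        obtain ⟨rfl, h1⟩ := h1
        have : v = w := funext fun a => le_antisymm (h1 a) (h2.2 a)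
        rw [this]
      | y j a t => exact h2.elim
    | y i a t =>
      cases q with
      | x j w => exact h1.elim
      | y j b s =>
        obtain ⟨rfl, rfl, h1⟩ := h1
        rw [le_antisymm h1 h2.2.2]

theorem Pos.xx {I A : Type} {N : ℕ} {E : I → I → A → Prop} (i j : I) (v w : A → Fin N) :
    (Pos.x i v : Pos I A N E) ≤ Pos.x j w ↔ i = j ∧ ∀ a, v a ≤ w a := Iff.rfl

theorem Pos.xy {I A : Type} {N : ℕ} {E : I → I → A → Prop} (i j : I) (v : A → Fin N) (a : A)
    (q : Fin N) : (Pos.x i v : Pos I A N E) ≤ Pos.y j a q ↔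
      (i = j ∧ v a < q) ∨ (i ≠ j ∧ E i j a) := Iff.rfl

theorem Pos.yy {I A : Type} {N : ℕ} {E : I → I → A → Prop} (i j : I) (a b : A) (q r : Fin N) :
    (Pos.y i a q : Pos I A N E) ≤ Pos.y j b r ↔ i = j ∧ a = b ∧ q ≤ r := Iff.rfl

theorem Pos.yx {I A : Type} {N : ℕ} {E : I → I → A → Prop} (i j : I) (a : A) (q : Fin N)
    (v : A → Fin N) : ¬ (Pos.y i a q : Pos I A N E) ≤ Pos.x j v := fun h => h

/-- `Pos` as a sum -/
def Pos.equiv (I A : Type) (N : ℕ) (E : I → I → A → Prop) :
    Pos I A N E ≃ (I × (A → Fin N)) ⊕ (I × A × Fin N) where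
  toFun
    | .x i v => .inl (i, v)
    | .y i a q => .inr (i, a, q)
  invFun
    | .inl (i, v) => .x i v
    | .inr (i, a, q) => .y i a q
  left_inv p := by cases p <;> rfl
  right_inv p := by rcases p with ⟨i, v⟩ | ⟨i, a, q⟩ <;> rfl

open Classical in
noncomputable instance {I A : Type} {N : ℕ} {E : I → I → A → Prop} [Fintype I] [Fintype A] :
    Fintype (Pos I A N E) := Fintype.ofEquiv _ (Pos.equiv I A N E).symm

/-! ### The design: translates of the difference set `{1, 3, 4, 5, 9}` modulo `11` -/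

def dq : Fin 5 → Fin 11 := ![1, 3, 4, 5, 9]

def pr : Fin 5 → ℕ := ![0, 3, 4, 2, 1]

/-- the relation `E` of the first poset -/
def ES (e : ℕ) : Fin 11 → Fin 11 → (Fin 5 ⊕ Fin e) → Prop
  | i, j, .inl b => ∀ a : Fin 5, i + dq a = j + dq b → pr a < pr b
  | _, _, .inr _ => True

/-- the relation `E` of the second poset -/
def ET (n k : ℕ) : Fin n → Fin n → Fin k → Prop := fun _ _ _ => True

/-! ### Statements -/

/-- arbitrary finite index types -/
def S_IDX : Prop := ∀ (α : Type) (_ : PartialOrder α) (ι : Type) (_ : Fintype ι) (R : ι → PLE α)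
  (d : ℕ), (∀ x y : α, x < y → ∃ k, (R k).Before x y) →
  (∀ x y : α, ¬ x ≤ y → ¬ y ≤ x → ∃ k, (R k).Before x y) →
  (∀ (x : α) (s : Finset ι), (∀ k ∈ s, x ∈ (R k).carrier) → s.card ≤ d) → HasLR α d

/-- partial linear extensions from keys (ties are broken by a linear extension) -/
def S_KEY : Prop := ∀ (α β : Type) (_ : Fintype α) (_ : PartialOrder α) (_ : LinearOrder β)
  (s : Finset α) (key : α → β), (∀ x ∈ s, ∀ y ∈ s, x < y → key x ≤ key y) →
  ∃ L : PLE α, L.carrier = s ∧ ∀ x ∈ s, ∀ y ∈ s, key x < key y → L.Before x y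

/-- subposets -/
def S_RES : Prop := ∀ (α β : Type) (_ : PartialOrder α) (_ : PartialOrder β) (_ : α ↪o β) (d : ℕ),
  HasLR β d → HasLR α d

/-- finite posets have local realizers -/
def S_FIN : Prop := ∀ (α : Type) (_ : Fintype α) (_ : PartialOrder α), ∃ d, HasLR α d

/-- the upper bound -/
def S_UB : Prop := ∀ (α : Type) (_ : Fintype α) (_ : PartialOrder α) (d : ℕ),
  (∀ C : (cg α).ConnectedComponent, HasLR C.supp d) → HasLR α (d + 2)

/-- components of a disjoint union -/
def S_COMP : Prop := ∀ (α β : Type) (_ : PartialOrder α) (_ : PartialOrder β) (d : ℕ),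
  HasLR α d → HasLR β d → ∀ C : (cg (α ⊕ β)).ConnectedComponent, HasLR C.supp d

/-- monochromatic boxes -/
def S_BOX : Prop := ∀ (A C : Type) (_ : Fintype A) (_ : Fintype C), ∃ N : ℕ,
  ∀ f : (A → Fin N) → C, ∃ lo hi : A → Fin N, (∀ a, lo a < hi a) ∧
    ∀ v w : A → Fin N, (∀ a, v a = lo a ∨ v a = hi a) → (∀ a, w a = lo a ∨ w a = hi a) → f v = f w

/-- active members of local realizers -/
def S_ACT : Prop := ∀ (A : Type) (_ : Fintype A) (D : ℕ), ∃ N₀ : ℕ, ∀ N, N₀ ≤ N →
  ∀ (I : Type) (E : I → I → A → Prop) (β : Type) (_ : PartialOrder β) (f : Pos I A N E ↪o β)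
    (m : ℕ) (R : Fin m → PLE β), IsLocalRealizer R → (∀ b, freq R b ≤ D) → ∀ i : I,
    ∃ (v : A → Fin N) (g : A → Fin m), Function.Injective g ∧
      ∀ a, (R (g a)).Before (f (.y i a (v a))) (f (.x i v))

/-- local realizers of the first poset -/
def S_SREAL : Prop := ∀ e N : ℕ, HasLR (Pos (Fin 11) (Fin 5 ⊕ Fin e) N (ES e)) (5 + e)

/-- local realizers of the second poset -/
def S_TREAL : Prop := ∀ n k N : ℕ, 1 ≤ k → HasLR (Pos (Fin n) (Fin k) N (ET n k)) (k + 2)

/-- no three coordinates meet all blocks -/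
def S_H3 : Prop := ∀ (e : ℕ) (f : Fin 3 → Fin 11 × (Fin 5 ⊕ Fin e)),
  ∃ i, ∀ k, i ≠ (f k).1 ∧ ES e i (f k).1 (f k).2

/-- the lower bound -/
def S_LB : Prop := ∀ (I A : Type) (_ : Fintype I) (_ : Nonempty I) (_ : Fintype A) (E : I → I → A → Prop)
  (t D : ℕ), Fintype.card A = t + 2 → D ≤ t + 3 →
  (∀ f : Fin (D - t) → I × A, ∃ i, ∀ k, i ≠ (f k).1 ∧ E i (f k).1 (f k).2) →
  ∃ N n : ℕ, ¬ HasLR (Pos I A N E ⊕ Pos (Fin n) (Fin t) N (ET n t)) D

end Pool.Agent.H814.LD
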