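import Pool.Agent.H814.LD.Defs

/-!
# The design for frequency four: translates of `{0, 3, 5, 6}` modulo `7`
-/

set_option autoImplicit false

namespace Pool.Agent.H814.LD

def dq4 : Fin 4 → Fin 7 := ![0, 3, 5, 6]

def pr4 : Fin 4 → ℕ := ![1, 0, 2, 3]

def E4 : Fin 7 → Fin 7 → Fin 4 → Prop :=
  fun i j b => ∀ a : Fin 4, i + dq4 a = j + dq4 b → pr4 a < pr4 b

theorem dq4_inj : Function.Injective dq4 := by decide

theorem des4_u : ∀ i j : Fin 7, i ≠ j → ∃ a b, i + dq4 a = j + dq4 b ∧ pr4 a < pr4 b := by decide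

/-- local realizers of the poset for frequency four -/
def S_SREAL4 : Prop := ∀ N : ℕ, HasLR (Pos (Fin 7) (Fin 4) N E4) 4

/-- no two coordinates meet all blocks -/
def S_H2 : Prop := ∀ f : Fin 2 → Fin 7 × Fin 4, ∃ i, ∀ k, i ≠ (f k).1 ∧ E4 i (f k).1 (f k).2

theorem aux4 : ∀ c1 c2 : Fin 7, ∃ i : Fin 7, ∀ a : Fin 4, i + dq4 a ≠ c1 ∧ i + dq4 a ≠ c2 := by
  decide

theorem t_h2 : S_H2 := by
  intro f
  obtain ⟨i, hi⟩ := aux4 ((f 0).1 + dq4 (f 0).2) ((f 1).1 + dq4 (f 1).2)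
  refine ⟨i, fun k => ?_⟩
  have h : ∀ a, i + dq4 a ≠ (f k).1 + dq4 (f k).2 := by
    intro a
    fin_cases k
    · exact (hi a).1
    · exact (hi a).2
  refine ⟨?_, fun a ha => absurd ha (h a)⟩
  intro he
  exact h (f k).2 (by rw [he])

end Pool.Agent.H814.LD
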