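import Pool.Agent.H814.LD.Defs

/-!
# Local dimension: no three coordinates meet all blocks
-/

set_option autoImplicit false

namespace Pool.Agent.H814.LD

theorem dq_inj : Function.Injective dq := by
  unfold Function.Injective
  decide

theorem des_u : ∀ i j : Fin 11, i ≠ j → ∃ a b, i + dq a = j + dq b ∧ pr a < pr b := by
  decide +kernel

/-- three points do not meet all blocks -/
theorem des_3 : ∀ c1 c2 c3 : Fin 11, ∃ i : Fin 11, ∀ a : Fin 5,
    i + dq a ≠ c1 ∧ i + dq a ≠ c2 ∧ i + dq a ≠ c3 := by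
  decide +kernel

theorem t_h3 : S_H3 := by
  intro e f
  have hc : ∀ k : Fin 3, ∃ (c : Fin 11) (b : Fin 5), c = (f k).1 + dq b ∧
      ∀ b', (f k).2 = Sum.inl b' → b' = b := by
    intro k
    rcases h : (f k).2 with b | b
    · exact ⟨_, b, rfl, fun b' h' => (Sum.inl.inj h').symm⟩
    · exact ⟨_, 0, rfl, fun b' h' => by simp at h'⟩
  choose c b h1 h2 using hc
  obtain ⟨i, hi⟩ := des_3 (c 0) (c 1) (c 2)
  have hi' : ∀ (k : Fin 3) (a : Fin 5), i + dq a ≠ c k := by
    intro k a
    obtain ⟨g0, g1, g2⟩ := hi a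
    fin_cases k
    · exact g0
    · exact g1
    · exact g2
  refine ⟨i, fun k => ⟨?_, ?_⟩⟩
  · intro h
    exact hi' k (b k) (by rw [h, h1 k])
  · rcases h : (f k).2 with b' | b'
    · intro a ha
      rw [h2 k b' h, ← h1 k] at ha
      exact absurd ha (hi' k a)
    · trivial

end Pool.Agent.H814.LD
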