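import Pool.Agent.H814.LD.Defs

/-!
# Local dimension: partial linear extensions from keys
-/

set_option autoImplicit false

namespace Pool.Agent.H814.LD

open Classical in
theorem t_key : S_KEY := by
  intro α β _ _ _ s key hkey
  let φ : α → β ×ₗ LinearExtension α := fun x => toLex (key x, toLinearExtension x)
  have hinj : Function.Injective φ := by
    intro x y h
    have h1 : (key x, toLinearExtension x) = (key y, toLinearExtension y) := toLex.injective h
    exact (Prod.mk.inj h1).2
  have hrank : ∀ x y : α, φ x < φ y → (Finset.univ.filter fun z => φ z < φ x).card <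
      (Finset.univ.filter fun z => φ z < φ y).card := by
    intro x y h
    apply Finset.card_lt_card
    refine ⟨fun z hz => ?_, fun hsub => ?_⟩
    · rw [Finset.mem_filter] at hz ⊢
      exact ⟨hz.1, hz.2.trans h⟩
    · have h1 : x ∈ Finset.univ.filter fun z => φ z < φ y :=
        Finset.mem_filter.2 ⟨Finset.mem_univ x, h⟩
      exact lt_irrefl _ (Finset.mem_filter.1 (hsub h1)).2
  have hlt : ∀ x ∈ s, ∀ y ∈ s, x < y → φ x < φ y := by
    intro x hx y hy hxy
    have h1 : toLinearExtension x < toLinearExtension y :=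
      lt_of_le_of_ne (toLinearExtension.monotone hxy.le) fun h => hxy.ne h
    rcases (hkey x hx y hy hxy).lt_or_eq with h2 | h2
    · exact Prod.Lex.toLex_lt_toLex.2 (Or.inl h2)
    · exact Prod.Lex.toLex_lt_toLex.2 (Or.inr ⟨h2, h1⟩)
  refine ⟨⟨s, fun x => (Finset.univ.filter fun z => φ z < φ x).card, ?_, ?_⟩, rfl, ?_⟩
  · intro x _ y _ h
    rcases lt_trichotomy (φ x) (φ y) with h1 | h1 | h1
    · exact absurd h (hrank x y h1).ne
    · exact hinj h1
    · exact absurd h (hrank y x h1).ne'
  · intro x hx y hy hxy
    exact hrank x y (hlt x hx y hy hxy)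
  · intro x hx y hy hxy
    exact ⟨hx, hy, hrank x y (Prod.Lex.toLex_lt_toLex.2 (Or.inl hxy))⟩

end Pool.Agent.H814.LD
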