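import Pool.Agent.H814.LD.Defs

/-!
# The lower bound
-/

set_option autoImplicit false

namespace Pool.Agent.H814.LD

open Classical

/-- the left embedding -/
def embL (α β : Type) [PartialOrder α] [PartialOrder β] : α ↪o (α ⊕ β) where
  toFun := Sum.inl
  inj' := Sum.inl_injective
  map_rel_iff' := Sum.inl_le_inl_iff

/-- the right embedding -/
def embR (α β : Type) [PartialOrder α] [PartialOrder β] : β ↪o (α ⊕ β) where
  toFun := Sum.inr
  inj' := Sum.inr_injective
  map_rel_iff' := Sum.inr_le_inr_iff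

/-- a member is active at block `i` -/
def Act {I A : Type} {N : ℕ} {E : I → I → A → Prop} {β : Type} [PartialOrder β]
    (f : Pos I A N E → β) (L : PLE β) (i : I) : Prop :=
  ∃ (a : A) (v : A → Fin N), L.Before (f (.y i a (v a))) (f (.x i v))

theorem lb_aux {I A : Type} [Fintype I] [Nonempty I] [Fintype A] {E : I → I → A → Prop}
    {t D N n : ℕ} (hA : Fintype.card A = t + 2) (hD : D ≤ t + 3)
    (hH : ∀ f : Fin (D - t) → I × A, ∃ i, ∀ k, i ≠ (f k).1 ∧ E i (f k).1 (f k).2)
    (hn : Fintype.card (Pos I A N E) * D < n) {β : Type} [PartialOrder β]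
    (fS : Pos I A N E ↪o β) (fT : Pos (Fin n) (Fin t) N (ET n t) ↪o β)
    (hST : ∀ s u, ¬ fS s ≤ fT u ∧ ¬ fT u ≤ fS s) {m : ℕ} (R : Fin m → PLE β)
    (hR : IsLocalRealizer R) (hfr : ∀ b, freq R b ≤ D)
    (act1 : ∀ i : I, ∃ (v : A → Fin N) (g : A → Fin m), Function.Injective g ∧
      ∀ a, (R (g a)).Before (fS (.y i a (v a))) (fS (.x i v)))
    (act2 : ∀ i : Fin n, ∃ (v : Fin t → Fin N) (g : Fin t → Fin m), Function.Injective g ∧
      ∀ a, (R (g a)).Before (fT (.y i a (v a))) (fT (.x i v))) : False := by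
  -- the members which contain a point of `S`
  set Bd : Finset (Fin m) := Finset.univ.filter (fun k => ∃ s, fS s ∈ (R k).carrier) with hBd
  have hBdc : Bd.card ≤ Fintype.card (Pos I A N E) * D := by
    have h1 : Bd ⊆ (Finset.univ : Finset (Pos I A N E)).biUnion
        (fun s => Finset.univ.filter (fun k => fS s ∈ (R k).carrier)) := by
      intro k hk
      rw [hBd, Finset.mem_filter] at hk
      obtain ⟨-, s, hs⟩ := hk
      rw [Finset.mem_biUnion]
      exact ⟨s, Finset.mem_univ _, by rw [Finset.mem_filter]; exact ⟨Finset.mem_univ _, hs⟩⟩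
    refine (Finset.card_le_card h1).trans (Finset.card_biUnion_le.trans ?_)
    have h2 : ∀ s ∈ (Finset.univ : Finset (Pos I A N E)),
        (Finset.univ.filter (fun k => fS s ∈ (R k).carrier)).card ≤ D :=
      fun s _ => hfr (fS s)
    refine (Finset.sum_le_card_nsmul _ _ _ h2).trans ?_
    rw [Finset.card_univ, smul_eq_mul]
  -- each member is active at one block of `T` at most
  have huniq : ∀ k (i i' : Fin n), Act fT (R k) i → Act fT (R k) i' → i = i' := by
    rintro k i i' ⟨a, v, h1, h2, h3⟩ ⟨a', v', h1', h2', h3'⟩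
    by_contra hne
    have e1 : fT (.x i v) < fT (.y i' a' (v' a')) := by
      rw [OrderEmbedding.lt_iff_lt]
      refine lt_of_le_of_ne ((Pos.xy _ _ _ _ _).2 (Or.inr ⟨hne, trivial⟩)) ?_
      intro h
      cases h
    have e2 : fT (.x i' v') < fT (.y i a (v a)) := by
      rw [OrderEmbedding.lt_iff_lt]
      refine lt_of_le_of_ne ((Pos.xy _ _ _ _ _).2 (Or.inr ⟨Ne.symm hne, trivial⟩)) ?_
      intro h
      cases h
    have f1 := (R k).mono _ h2 _ h1' e1
    have f2 := (R k).mono _ h2' _ h1 e2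
    omega
  -- a block of `T` at which no bad member is active
  obtain ⟨i0, hi0⟩ : ∃ i : Fin n, ∀ k ∈ Bd, ¬ Act fT (R k) i := by
    by_contra hcon
    have hcon' : ∀ i : Fin n, ∃ k, k ∈ Bd ∧ Act fT (R k) i := by
      intro i
      by_contra h
      exact hcon ⟨i, fun k hk hk' => h ⟨k, hk, hk'⟩⟩
    choose ψ hψ using hcon'
    have hinj : Function.Injective ψ := by
      intro i i' h
      refine huniq (ψ i) i i' (hψ i).2 ?_
      rw [h]
      exact (hψ i').2
    have h1 := Finset.card_le_card_of_injOn ψ (s := Finset.univ) (t := Bd)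
      (fun i _ => (hψ i).1) (fun i _ i' _ h => hinj h)
    rw [Finset.card_univ, Fintype.card_fin] at h1
    omega
  obtain ⟨vT, gT, hgT, hgT2⟩ := act2 i0
  set u : β := fT (.x i0 vT) with hu
  -- the visible members
  set V : Finset (Fin m) := Finset.univ.filter (fun k => u ∈ (R k).carrier ∧ k ∈ Bd) with hV
  have hVc : V.card ≤ D - t := by
    have hW := hfr u
    unfold freq at hW
    have h1 : V ∪ Finset.univ.image gT ⊆ Finset.univ.filter (fun k => u ∈ (R k).carrier) := by
      intro k hk
      rw [Finset.mem_union] at hk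
      rw [Finset.mem_filter]
      refine ⟨Finset.mem_univ _, ?_⟩
      rcases hk with hk | hk
      · rw [hV, Finset.mem_filter] at hk
        exact hk.2.1
      · rw [Finset.mem_image] at hk
        obtain ⟨a, -, rfl⟩ := hk
        exact (hgT2 a).2.1
    have h2 : Disjoint V (Finset.univ.image gT) := by
      rw [Finset.disjoint_left]
      intro k hk hk'
      rw [Finset.mem_image] at hk'
      obtain ⟨a, -, rfl⟩ := hk'
      rw [hV, Finset.mem_filter] at hk
      exact hi0 _ hk.2.2 ⟨a, vT, hgT2 a⟩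
    have h3 := Finset.card_le_card h1
    rw [Finset.card_union_of_disjoint h2, Finset.card_image_of_injective _ hgT, Finset.card_univ,
      Fintype.card_fin] at h3
    omega
  -- each point of `S` is in two visible members
  have htwo : ∀ s, 2 ≤ (V.filter (fun k => fS s ∈ (R k).carrier)).card := by
    intro s
    obtain ⟨n1, n2⟩ := hST s (.x i0 vT)
    obtain ⟨k1, c1, c2, c3⟩ := hR.incomp _ _ n1 n2
    obtain ⟨k2, b1, b2, b3⟩ := hR.incomp _ _ n2 n1
    have hne : k1 ≠ k2 := by
      rintro rfl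
      omega
    have m1 : k1 ∈ V.filter (fun k => fS s ∈ (R k).carrier) := by
      rw [Finset.mem_filter, hV, Finset.mem_filter, hBd, Finset.mem_filter]
      exact ⟨⟨Finset.mem_univ _, c2, Finset.mem_univ _, s, c1⟩, c1⟩
    have m2 : k2 ∈ V.filter (fun k => fS s ∈ (R k).carrier) := by
      rw [Finset.mem_filter, hV, Finset.mem_filter, hBd, Finset.mem_filter]
      exact ⟨⟨Finset.mem_univ _, b1, Finset.mem_univ _, s, b2⟩, b2⟩
    have h3 : ({k1, k2} : Finset (Fin m)) ⊆ V.filter (fun k => fS s ∈ (R k).carrier) := by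
      intro k hk
      rw [Finset.mem_insert, Finset.mem_singleton] at hk
      rcases hk with rfl | rfl
      · exact m1
      · exact m2
    have h4 := Finset.card_le_card h3
    rw [Finset.card_pair hne] at h4
    exact h4
  -- at each block of `S` some visible member is active
  have hblock : ∀ i : I, ∃ k ∈ V, Act fS (R k) i := by
    intro i
    obtain ⟨v, g, hg, hg2⟩ := act1 i
    by_contra hcon
    have h1 := htwo (.x i v)
    have h2 : Disjoint (V.filter (fun k => fS (.x i v) ∈ (R k).carrier))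
        (Finset.univ.image g) := by
      rw [Finset.disjoint_left]
      intro k hk hk'
      rw [Finset.mem_image] at hk'
      obtain ⟨a, -, rfl⟩ := hk'
      rw [Finset.mem_filter] at hk
      exact hcon ⟨_, hk.1, a, v, hg2 a⟩
    have h3 : (V.filter (fun k => fS (.x i v) ∈ (R k).carrier)) ∪ (Finset.univ.image g) ⊆
        Finset.univ.filter (fun k => fS (.x i v) ∈ (R k).carrier) := by
      intro k hk
      rw [Finset.mem_union] at hk
      rw [Finset.mem_filter]
      refine ⟨Finset.mem_univ _, ?_⟩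
      rcases hk with hk | hk
      · rw [Finset.mem_filter] at hk
        exact hk.2
      · rw [Finset.mem_image] at hk
        obtain ⟨a, -, rfl⟩ := hk
        exact (hg2 a).2.1
    have h4 := Finset.card_le_card h3
    have h5 := hfr (fS (.x i v))
    unfold freq at h5
    rw [Finset.card_union_of_disjoint h2, Finset.card_image_of_injective _ hg, Finset.card_univ,
      hA] at h4
    omega
  -- the lowest active point of each member
  have hAne : Nonempty A := by
    rw [← Fintype.card_pos_iff, hA]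
    omega
  obtain ⟨i1⟩ := ‹Nonempty I›
  obtain ⟨a1⟩ := hAne
  have hlow : ∀ k : Fin m, ∃ p : I × A, ∀ i, Act fS (R k) i → ¬ (i ≠ p.1 ∧ E i p.1 p.2) := by
    intro k
    by_cases hex : ∃ i, Act fS (R k) i
    · set Z : Set ℕ := {r | ∃ (i : I) (a : A) (v : A → Fin N),
        (R k).Before (fS (.y i a (v a))) (fS (.x i v)) ∧
        r = (R k).rank (fS (.y i a (v a)))} with hZ
      have hZne : Z.Nonempty := by
        obtain ⟨i, a, v, h⟩ := hex
        exact ⟨_, i, a, v, h, rfl⟩
      obtain ⟨j, b, w, hw, hr⟩ := Nat.sInf_mem hZne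
      refine ⟨(j, b), ?_⟩
      rintro i ⟨a, v, h⟩ ⟨hne, hE⟩
      have h1 : sInf Z ≤ (R k).rank (fS (.y i a (v a))) := Nat.sInf_le ⟨i, a, v, h, rfl⟩
      have h2 : fS (.x i v) < fS (.y j b (w b)) := by
        rw [OrderEmbedding.lt_iff_lt]
        refine lt_of_le_of_ne ((Pos.xy _ _ _ _ _).2 (Or.inr ⟨hne, hE⟩)) ?_
        intro h
        cases h
      have h3 := (R k).mono _ h.2.1 _ hw.1 h2
      have h4 := h.2.2
      omega
    · exact ⟨(i1, a1), fun i hi => absurd ⟨i, hi⟩ hex⟩
  choose P hP using hlow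
  -- enumerate the visible members
  obtain ⟨e, he⟩ : ∃ e : Fin (D - t) → I × A, ∀ k ∈ V, ∃ l, e l = P k := by
    have h1 : Fintype.card {k // k ∈ V} ≤ Fintype.card (Fin (D - t)) := by
      rw [Fintype.card_coe, Fintype.card_fin]
      exact hVc
    obtain ⟨q⟩ := Function.Embedding.nonempty_of_card_le h1
    refine ⟨fun l => if h : ∃ k, q k = l then P h.choose.1 else (i1, a1), ?_⟩
    intro k hk
    refine ⟨q ⟨k, hk⟩, ?_⟩
    have h2 : ∃ k', q k' = q ⟨k, hk⟩ := ⟨_, rfl⟩
    show (if h : ∃ k', q k' = q ⟨k, hk⟩ then P h.choose.1 else (i1, a1)) = P k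
    rw [dif_pos h2]
    have h3 := q.injective h2.choose_spec
    rw [h3]
  obtain ⟨i, hi⟩ := hH e
  obtain ⟨k, hk, hka⟩ := hblock i
  obtain ⟨l, hl⟩ := he k hk
  have h1 := hi l
  rw [hl] at h1
  exact hP k i hka h1

theorem t_lb (hact : S_ACT) : S_LB := by
  intro I A _ _ _ E t D hA hD hH
  obtain ⟨N1, hN1⟩ := hact A inferInstance D
  obtain ⟨N2, hN2⟩ := hact (Fin t) inferInstance D
  refine ⟨max N1 N2, Fintype.card (Pos I A (max N1 N2) E) * D + 1, ?_⟩
  rintro ⟨m, R, hR, hfr⟩
  exact lb_aux hA hD hH (Nat.lt_succ_self _) (embL _ _) (embR _ _)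
    (fun s u => ⟨Sum.not_inl_le_inr, Sum.not_inr_le_inl⟩) R hR hfr
    (fun i => hN1 _ (le_max_left _ _) _ _ _ _ _ _ R hR hfr i)
    (fun i => hN2 _ (le_max_right _ _) _ _ _ _ _ _ R hR hfr i)

end Pool.Agent.H814.LD
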