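import Pool.Agent.H814.LD.Defs

/-!
# Local dimension: subposets and finite posets
-/

set_option autoImplicit false

namespace Pool.Agent.H814.LD

/-- pull back along an order embedding -/
noncomputable def resPLE {α β : Type} [PartialOrder α] [PartialOrder β] (f : α ↪o β) (L : PLE β) :
    PLE α where
  carrier := L.carrier.preimage f f.injective.injOn
  rank x := L.rank (f x)
  inj _ hx _ hy h := f.injective (L.inj _ (Finset.mem_preimage.1 hx) _ (Finset.mem_preimage.1 hy) h)
  mono _ hx _ hy h := L.mono _ (Finset.mem_preimage.1 hx) _ (Finset.mem_preimage.1 hy)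
    (f.lt_iff_lt.2 h)

theorem mem_res {α β : Type} [PartialOrder α] [PartialOrder β] (f : α ↪o β) (L : PLE β) {x : α} :
    x ∈ (resPLE f L).carrier ↔ f x ∈ L.carrier := by
  simp only [resPLE, Finset.mem_preimage]

theorem resPLE_before {α β : Type} [PartialOrder α] [PartialOrder β] (f : α ↪o β) (L : PLE β)
    {x y : α} (h : L.Before (f x) (f y)) : (resPLE f L).Before x y :=
  ⟨(mem_res f L).2 h.1, (mem_res f L).2 h.2.1, h.2.2⟩

theorem t_res : S_RES := by
  classical
  intro α β _ _ f d h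
  obtain ⟨m, R, hR, hd⟩ := h
  refine ⟨m, fun k => resPLE f (R k), ⟨?_, ?_⟩, ?_⟩
  · intro x y hxy
    obtain ⟨k, hk⟩ := hR.comp (f x) (f y) (f.lt_iff_lt.2 hxy)
    exact ⟨k, resPLE_before f (R k) hk⟩
  · intro x y h1 h2
    obtain ⟨k, hk⟩ := hR.incomp (f x) (f y) (fun h => h1 (f.le_iff_le.1 h))
      (fun h => h2 (f.le_iff_le.1 h))
    exact ⟨k, resPLE_before f (R k) hk⟩
  · intro x
    refine le_trans ?_ (hd (f x))
    unfold freq
    refine Finset.card_le_card fun k hk => ?_
    rw [Finset.mem_filter] at hk ⊢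
    exact ⟨hk.1, (mem_res f (R k)).1 hk.2⟩

theorem t_fin (h1 : S_IDX) (h2 : S_KEY) : S_FIN := by
  classical
  intro α _ _
  have hkey : ∀ p : {p : α × α // ¬ p.2 ≤ p.1}, ∃ L : PLE α, L.carrier = Finset.univ ∧
      L.Before p.1.1 p.1.2 := by
    intro p
    obtain ⟨L, hL, hb⟩ := h2 α ℕ inferInstance inferInstance inferInstance Finset.univ
      (fun z => if p.1.2 ≤ z then 1 else 0) (by
        intro x _ y _ hxy
        by_cases h : p.1.2 ≤ x
        · simp only [if_pos h, if_pos (h.trans hxy.le), le_refl]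
        · simp only [if_neg h, Nat.zero_le])
    refine ⟨L, hL, hb _ (Finset.mem_univ _) _ (Finset.mem_univ _) ?_⟩
    simp only [if_neg p.2, le_refl, if_true, Nat.lt_one_iff]
  choose L _ hb using hkey
  refine ⟨Fintype.card {p : α × α // ¬ p.2 ≤ p.1}, h1 α inferInstance {p : α × α // ¬ p.2 ≤ p.1}
    inferInstance L _ ?_ ?_ ?_⟩
  · intro x y hxy
    exact ⟨⟨(x, y), hxy.not_ge⟩, hb ⟨(x, y), hxy.not_ge⟩⟩
  · intro x y _ hyx
    exact ⟨⟨(x, y), hyx⟩, hb ⟨(x, y), hyx⟩⟩
  · intro x s _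
    exact Finset.card_le_univ s

end Pool.Agent.H814.LD
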