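import Pool.Agent.H814.LD.Defs

/-!
# Local realizers of the second poset (`S_TREAL`)
-/

set_option autoImplicit false

namespace Pool.Agent.H814.LD

namespace TREAL

variable {n k N : ℕ}

/-- membership in the members of the realizer -/
def inS : (Fin n × Fin k) ⊕ Bool → Pos (Fin n) (Fin k) N (ET n k) → Prop
  | .inl c, .x j _ => j = c.1
  | .inl c, .y j b _ => j = c.1 ∧ b = c.2
  | .inr _, _ => True

/-- the number of the group of `y i a` -/
def gg (n k : ℕ) (b : Bool) (i : Fin n) (a : Fin k) : ℕ :=
  if b then i.1 * k + a.1 else n * k - (i.1 * k + a.1)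

/-- the number of the block `x i` -/
def xg (n : ℕ) (b : Bool) (i : Fin n) : ℕ := if b then i.1 else n - i.1

/-- the keys -/
def key : (Fin n × Fin k) ⊕ Bool → Pos (Fin n) (Fin k) N (ET n k) → ℕ
  | .inl c, .x _ v => 2 * (v c.2).1 + 1
  | .inl _, .y _ _ q => 2 * q.1
  | .inr b, .x i _ => xg n b i
  | .inr b, .y i a q => n + 1 + gg n k b i a * (N + 1) + q.1

theorem xg_le (b : Bool) (i : Fin n) : xg n b i ≤ n := by
  unfold xg
  have := i.2
  split_ifs <;> omega

theorem gg_lt (i : Fin n) (a : Fin k) : i.1 * k + a.1 < n * k := by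
  have h1 := i.2
  have h2 := a.2
  have h3 : (i.1 + 1) * k ≤ n * k := Nat.mul_le_mul_right k h1
  have h4 : (i.1 + 1) * k = i.1 * k + k := by ring
  omega

theorem gg_inj {i j : Fin n} {a b : Fin k} (h : i.1 * k + a.1 = j.1 * k + b.1) : i = j ∧ a = b := by
  have ha := a.2
  have hb := b.2
  have hk : 0 < k := by omega
  have h1 : (i.1 * k + a.1) / k = i.1 := by
    rw [mul_comm, Nat.mul_add_div hk, Nat.div_eq_of_lt ha, add_zero]
  have h2 : (j.1 * k + b.1) / k = j.1 := by
    rw [mul_comm, Nat.mul_add_div hk, Nat.div_eq_of_lt hb, add_zero]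
  have h3 : i.1 = j.1 := by rw [← h1, ← h2, h]
  refine ⟨Fin.ext h3, Fin.ext ?_⟩
  rw [h3] at h
  omega

/-- the keys are monotone -/
theorem key_mono (κ : (Fin n × Fin k) ⊕ Bool) (p q : Pos (Fin n) (Fin k) N (ET n k))
    (hp : inS κ p) (hq : inS κ q) (h : p ≤ q) : key κ p ≤ key κ q := by
  rcases κ with c | b
  · cases p with
    | x i v =>
      cases q with
      | x j w =>
        have h1 := ((Pos.xx i j v w).1 h).2 c.2
        have h2 : (v c.2).1 ≤ (w c.2).1 := h1
        change 2 * (v c.2).1 + 1 ≤ 2 * (w c.2).1 + 1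
        omega
      | y j a q =>
        have h1 : i = c.1 := hp
        have h2 : j = c.1 ∧ a = c.2 := hq
        change 2 * (v c.2).1 + 1 ≤ 2 * q.1
        rcases (Pos.xy i j v a q).1 h with h3 | h3
        · have h4 : (v a).1 < q.1 := h3.2
          rw [h2.2] at h4
          omega
        · exact absurd (h1.trans h2.1.symm) h3.1
    | y i a t =>
      cases q with
      | x j w => exact (Pos.yx i j a t w h).elim
      | y j b r =>
        have h1 : t.1 ≤ r.1 := ((Pos.yy i j a b t r).1 h).2.2
        change 2 * t.1 ≤ 2 * r.1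
        omega
  · cases p with
    | x i v =>
      cases q with
      | x j w =>
        have h1 := ((Pos.xx i j v w).1 h).1
        change xg n b i ≤ xg n b j
        rw [h1]
      | y j a q =>
        change xg n b i ≤ n + 1 + gg n k b j a * (N + 1) + q.1
        have := xg_le b i
        omega
    | y i a t =>
      cases q with
      | x j w => exact (Pos.yx i j a t w h).elim
      | y j c r =>
        obtain ⟨h1, h2, h3⟩ := (Pos.yy i j a c t r).1 h
        have h4 : t.1 ≤ r.1 := h3
        change n + 1 + gg n k b i a * (N + 1) + t.1 ≤ n + 1 + gg n k b j c * (N + 1) + r.1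
        rw [h1, h2]
        omega

theorem lt_of_gg {g g' q r : ℕ} (h : g < g') (hq : q < N) :
    n + 1 + g * (N + 1) + q < n + 1 + g' * (N + 1) + r := by
  have h1 : (g + 1) * (N + 1) ≤ g' * (N + 1) := Nat.mul_le_mul_right _ h
  have h2 : (g + 1) * (N + 1) = g * (N + 1) + (N + 1) := by ring
  omega

/-- every pair is reversed somewhere -/
theorem exists_key (p q : Pos (Fin n) (Fin k) N (ET n k)) (h : ¬ q ≤ p) :
    ∃ κ : (Fin n × Fin k) ⊕ Bool, inS κ p ∧ inS κ q ∧ key κ p < key κ q := by
  cases p with
  | x i v =>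
    cases q with
    | x j w =>
      by_cases hij : i = j
      · subst hij
        have h1 : ∃ a, ¬ w a ≤ v a := by
          by_contra hc
          push Not at hc
          exact h ((Pos.xx i i w v).2 ⟨rfl, hc⟩)
        obtain ⟨a, ha⟩ := h1
        refine ⟨.inl (i, a), rfl, rfl, ?_⟩
        have h2 : (v a).1 < (w a).1 := not_le.1 ha
        change 2 * (v a).1 + 1 < 2 * (w a).1 + 1
        omega
      · have h1 : i.1 ≠ j.1 := fun hc => hij (Fin.ext hc)
        rcases lt_or_gt_of_ne h1 with h2 | h2
        · exact ⟨.inr true, trivial, trivial, h2⟩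
        · refine ⟨.inr false, trivial, trivial, ?_⟩
          change n - i.1 < n - j.1
          have := i.2
          omega
    | y j a q =>
      refine ⟨.inr true, trivial, trivial, ?_⟩
      change xg n true i < n + 1 + gg n k true j a * (N + 1) + q.1
      have := xg_le true i
      omega
  | y i a t =>
    cases q with
    | x j w =>
      have h1 : j = i := by
        by_contra hc
        exact h ((Pos.xy j i w a t).2 (Or.inr ⟨hc, trivial⟩))
      subst h1
      have h2 : ¬ w a < t := fun hc => h ((Pos.xy j j w a t).2 (Or.inl ⟨rfl, hc⟩))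
      have h3 : t.1 ≤ (w a).1 := not_lt.1 h2
      refine ⟨.inl (j, a), ⟨rfl, rfl⟩, rfl, ?_⟩
      change 2 * t.1 < 2 * (w a).1 + 1
      omega
    | y j c r =>
      by_cases hg : i.1 * k + a.1 = j.1 * k + c.1
      · obtain ⟨h1, h2⟩ := gg_inj hg
        subst h1 h2
        have h3 : t.1 < r.1 := by
          by_contra hc
          exact h ((Pos.yy i i a a r t).2 ⟨rfl, rfl, not_lt.1 hc⟩)
        refine ⟨.inr true, trivial, trivial, ?_⟩
        change n + 1 + gg n k true i a * (N + 1) + t.1 < n + 1 + gg n k true i a * (N + 1) + r.1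
        omega
      · rcases lt_or_gt_of_ne hg with h2 | h2
        · refine ⟨.inr true, trivial, trivial, ?_⟩
          exact lt_of_gg (g := i.1 * k + a.1) (g' := j.1 * k + c.1) h2 t.2
        · refine ⟨.inr false, trivial, trivial, ?_⟩
          have h3 := gg_lt i a
          refine lt_of_gg (g := n * k - (i.1 * k + a.1)) (g' := n * k - (j.1 * k + c.1)) ?_ t.2
          omega

end TREAL

open TREAL in
theorem t_treal (h1 : S_IDX) (h2 : S_KEY) : S_TREAL := by
  classical
  intro n k N hk
  have hL : ∀ κ : (Fin n × Fin k) ⊕ Bool, ∃ L : PLE (Pos (Fin n) (Fin k) N (ET n k)),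
      L.carrier = Finset.univ.filter (inS κ) ∧
      ∀ x ∈ Finset.univ.filter (inS (N := N) κ), ∀ y ∈ Finset.univ.filter (inS (N := N) κ),
        key κ x < key κ y → L.Before x y := by
    intro κ
    refine h2 (Pos (Fin n) (Fin k) N (ET n k)) ℕ inferInstance inferInstance inferInstance
      (Finset.univ.filter (inS κ)) (key κ) ?_
    intro x hx y hy hxy
    rw [Finset.mem_filter] at hx hy
    exact key_mono κ x y hx.2 hy.2 hxy.le
  choose R hR1 hR2 using hL
  have hB : ∀ p q : Pos (Fin n) (Fin k) N (ET n k), ¬ q ≤ p → ∃ κ, (R κ).Before p q := by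
    intro p q h
    obtain ⟨κ, h3, h4, h5⟩ := exists_key p q h
    exact ⟨κ, hR2 κ p (Finset.mem_filter.2 ⟨Finset.mem_univ _, h3⟩) q
      (Finset.mem_filter.2 ⟨Finset.mem_univ _, h4⟩) h5⟩
  refine h1 (Pos (Fin n) (Fin k) N (ET n k)) inferInstance ((Fin n × Fin k) ⊕ Bool) inferInstance R
    (k + 2) (fun p q h => hB p q (not_le_of_gt h)) (fun p q _ h => hB p q h) ?_
  intro p s hs
  have hs' : ∀ κ ∈ s, inS κ p := by
    intro κ hκ
    have := hs κ hκ
    rw [hR1 κ, Finset.mem_filter] at this
    exact this.2
  cases p with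
  | x i v =>
    have hsub : s ⊆ (Finset.univ.image (fun a : Fin k => (Sum.inl (i, a) : (Fin n × Fin k) ⊕ Bool)))
        ∪ Finset.univ.image (fun b : Bool => (Sum.inr b : (Fin n × Fin k) ⊕ Bool)) := by
      intro κ hκ
      have h3 := hs' κ hκ
      rw [Finset.mem_union, Finset.mem_image, Finset.mem_image]
      rcases κ with c | b
      · left
        have h4 : i = c.1 := h3
        exact ⟨c.2, Finset.mem_univ _, by rw [h4]⟩
      · right
        exact ⟨b, Finset.mem_univ _, rfl⟩
    refine (Finset.card_le_card hsub).trans ((Finset.card_union_le _ _).trans ?_)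
    refine (Nat.add_le_add Finset.card_image_le Finset.card_image_le).trans ?_
    simp
  | y i a q =>
    have hsub : s ⊆ ({(Sum.inl (i, a) : (Fin n × Fin k) ⊕ Bool)} : Finset _)
        ∪ Finset.univ.image (fun b : Bool => (Sum.inr b : (Fin n × Fin k) ⊕ Bool)) := by
      intro κ hκ
      have h3 := hs' κ hκ
      rw [Finset.mem_union, Finset.mem_singleton, Finset.mem_image]
      rcases κ with c | b
      · left
        have h4 : i = c.1 ∧ a = c.2 := h3
        rw [h4.1, h4.2]
      · right
        exact ⟨b, Finset.mem_univ _, rfl⟩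
    refine (Finset.card_le_card hsub).trans ((Finset.card_union_le _ _).trans ?_)
    refine (Nat.add_le_add (Finset.card_singleton _).le Finset.card_image_le).trans ?_
    simp
    omega

end Pool.Agent.H814.LD
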