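import Pool.Agent.H814.LD.IDX
import Pool.Agent.H814.LD.KEY
import Pool.Agent.H814.LD.RESFIN
import Pool.Agent.H814.LD.COMP
import Pool.Agent.H814.LD.BOX
import Pool.Agent.H814.LD.ACT
import Pool.Agent.H814.LD.TREAL
import Pool.Agent.H814.LD.H3
import Pool.Agent.H814.LD.LB

/-!
# Assembly
-/

set_option autoImplicit false

namespace Pool.Agent.H814.LD

theorem HasLR.mono {α : Type} [PartialOrder α] {d e : ℕ} (h : HasLR α d) (hde : d ≤ e) :
    HasLR α e := by
  obtain ⟨m, R, h1, h2⟩ := h
  exact ⟨m, R, h1, fun x => (h2 x).trans hde⟩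

theorem ldim_le_iff {α : Type} [Finite α] [PartialOrder α] (d : ℕ) :
    ldim α ≤ d ↔ HasLR α d := by
  constructor
  · intro h
    have h1 : {d | HasLR α d}.Nonempty := t_fin t_idx t_key α (Fintype.ofFinite α) inferInstance
    exact HasLR.mono (Nat.sInf_mem h1) h
  · intro h
    exact Nat.sInf_le h

/-- the values of the local dimension on the disconnected posets all of whose components have local
dimension at most `d` -/
def vals (d : ℕ) : Set ℕ := {n | ∃ (α : Type) (_ : Finite α) (_ : PartialOrder α),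
  ¬ (cg α).Preconnected ∧ (∀ C : (cg α).ConnectedComponent, ldim C.supp ≤ d) ∧ ldim α = n}

theorem upper (h : S_UB) {d n : ℕ} (hn : n ∈ vals d) : n ≤ d + 2 := by
  obtain ⟨α, _, _, -, h2, rfl⟩ := hn
  rw [ldim_le_iff]
  exact h α (Fintype.ofFinite α) _ d (fun C => (ldim_le_iff d).1 (h2 C))

/-- disjoint unions without local realizers of frequency `D` -/
theorem lower {α : Type} [Finite α] [PartialOrder α] {d D : ℕ}
    (hC : ∀ C : (cg α).ConnectedComponent, HasLR C.supp d) (hd : d ≤ D) (hD : ¬ HasLR α D) :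
    ldim α ∈ vals d ∧ D < ldim α := by
  refine ⟨⟨α, inferInstance, inferInstance, ?_, fun C => (ldim_le_iff d).2 (hC C), rfl⟩, ?_⟩
  · intro hpre
    apply hD
    by_cases hne : Nonempty α
    · obtain ⟨p⟩ := hne
      have h1 : ∀ q : α, q ∈ ((cg α).connectedComponentMk p).supp := by
        intro q
        rw [SimpleGraph.ConnectedComponent.mem_supp_iff, SimpleGraph.ConnectedComponent.eq]
        exact hpre q p
      have h2 : α ↪o ((cg α).connectedComponentMk p).supp :=
        { toFun := fun q => ⟨q, h1 q⟩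
          inj' := fun q r h => congrArg Subtype.val h
          map_rel_iff' := Iff.rfl }
      exact HasLR.mono (t_res _ _ _ _ h2 d (hC _)) hd
    · have : IsEmpty α := not_nonempty_iff.1 hne
      exact ⟨0, fun k => k.elim0, ⟨fun x => isEmptyElim x, fun x => isEmptyElim x⟩,
        fun x => isEmptyElim x⟩
  · by_contra hlt
    exact hD ((ldim_le_iff D).1 (not_lt.1 hlt))

theorem main_ge (hub : S_UB) (hs : S_SREAL) (d : ℕ) (hd : 5 ≤ d) :
    IsGreatest (vals d) (d + 2) := by
  refine ⟨?_, fun n hn => upper hub hn⟩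
  obtain ⟨e, rfl⟩ := Nat.exists_eq_add_of_le hd
  obtain ⟨N, n, h⟩ := t_lb (t_act t_box) (Fin 11) (Fin 5 ⊕ Fin e) inferInstance inferInstance
    inferInstance (ES e) (3 + e) (6 + e)
    (by rw [Fintype.card_sum, Fintype.card_fin, Fintype.card_fin]; omega) (by omega) (by
      have h1 : 6 + e - (3 + e) = 3 := by omega
      rw [h1]
      exact t_h3 e)
  have hS : HasLR (Pos (Fin 11) (Fin 5 ⊕ Fin e) N (ES e)) (5 + e) := hs e N
  have hT : HasLR (Pos (Fin n) (Fin (3 + e)) N (ET n (3 + e))) (5 + e) := by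
    have := t_treal t_idx t_key n (3 + e) N (by omega)
    rwa [show 3 + e + 2 = 5 + e by omega] at this
  have hfin : Finite (Pos (Fin 11) (Fin 5 ⊕ Fin e) N (ES e) ⊕
      Pos (Fin n) (Fin (3 + e)) N (ET n (3 + e))) := inferInstance
  obtain ⟨h1, h2⟩ := lower (t_comp t_res _ _ _ _ _ hS hT) (show 5 + e ≤ 6 + e by omega) h
  have h3 := upper hub h1
  have h4 : 5 + e + 2 = ldim (Pos (Fin 11) (Fin 5 ⊕ Fin e) N (ES e) ⊕
      Pos (Fin n) (Fin (3 + e)) N (ET n (3 + e))) := by omega
  rw [h4]
  exact h1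

end Pool.Agent.H814.LD
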