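import Pool.Agent.H814.LD.Fin
import Pool.Agent.H814.LD.Defs4

/-!
# Assembly for frequency four
-/

set_option autoImplicit false

namespace Pool.Agent.H814.LD

theorem main_four (hub : S_UB) (hs : S_SREAL4) :
    ∃ n, IsGreatest (vals 4) n ∧ 5 ≤ n ∧ n ≤ 6 := by
  obtain ⟨N, n, h⟩ := t_lb (t_act t_box) (Fin 7) (Fin 4) inferInstance inferInstance
    inferInstance E4 2 4 (by rw [Fintype.card_fin]) (by omega) t_h2
  have hS : HasLR (Pos (Fin 7) (Fin 4) N E4) 4 := hs N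
  have hT : HasLR (Pos (Fin n) (Fin 2) N (ET n 2)) 4 := t_treal t_idx t_key n 2 N (by omega)
  have hfin : Finite (Pos (Fin 7) (Fin 4) N E4 ⊕ Pos (Fin n) (Fin 2) N (ET n 2)) := inferInstance
  obtain ⟨h1, h2⟩ := lower (t_comp t_res _ _ _ _ _ hS hT) le_rfl h
  have hne : (vals 4).Nonempty := ⟨_, h1⟩
  have hbd : BddAbove (vals 4) := ⟨6, fun k hk => upper hub hk⟩
  refine ⟨sSup (vals 4), ⟨Nat.sSup_mem hne hbd, fun k hk => le_csSup hbd hk⟩, ?_, ?_⟩
  · exact le_trans h2 (le_csSup hbd h1)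
  · exact upper hub (Nat.sSup_mem hne hbd)

end Pool.Agent.H814.LD
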