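import Pool.Agent.H814.LD.Defs

/-!
# Arbitrary finite index types for local realizers
-/

set_option autoImplicit false

namespace Pool.Agent.H814.LD

theorem t_idx : S_IDX := by
  classical
  intro α iα ι iι R d hc hi hf
  let e : ι ≃ Fin (Fintype.card ι) := Fintype.equivFin ι
  refine ⟨Fintype.card ι, fun k => R (e.symm k), ⟨?_, ?_⟩, ?_⟩
  · intro x y hxy
    obtain ⟨k, hk⟩ := hc x y hxy
    refine ⟨e k, ?_⟩
    rw [Equiv.symm_apply_apply]
    exact hk
  · intro x y h1 h2
    obtain ⟨k, hk⟩ := hi x y h1 h2
    refine ⟨e k, ?_⟩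
    rw [Equiv.symm_apply_apply]
    exact hk
  · intro x
    have h1 : ∀ s : Finset (Fin (Fintype.card ι)), (∀ k ∈ s, x ∈ (R (e.symm k)).carrier) →
        s.card ≤ d := by
      intro s hs
      have h2 := hf x (s.map e.symm.toEmbedding) (by
        intro k hk
        rw [Finset.mem_map] at hk
        obtain ⟨l, hl, rfl⟩ := hk
        exact hs l hl)
      rw [Finset.card_map] at h2
      exact h2
    unfold freq
    apply h1
    intro k hk
    exact (Finset.mem_filter.1 hk).2

end Pool.Agent.H814.LD
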