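import Pool.Agent.H814.LD.Defs

/-!
# Local realizers of the first poset
-/

set_option autoImplicit false

namespace Pool.Agent.H814.LD

namespace SREAL

def K0 : Finset (Fin 11) := {1, 3, 4, 5, 9}

def K1 : Finset (Fin 11) := {3, 4, 5, 9}

/-- the index `a` with `i + dq a = c` (if there is one) -/
def idx (i c : Fin 11) : Fin 5 :=
  if i + 1 = c then 0 else if i + 3 = c then 1 else if i + 4 = c then 2 else
    if i + 5 = c then 3 else 4

/-- the points in which the blocks `y j (inl b)` are used -/
def J (j : Fin 11) (b : Fin 5) : Finset (Fin 11) :=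
  if j + dq b ∈ K0 then K0 else insert (j + dq b) K1

theorem idx_dq : ∀ (i : Fin 11) (a : Fin 5), idx i (i + dq a) = a := by decide

theorem f2 : ∀ i j : Fin 11, i ≠ j → ∃ a b : Fin 5, i + dq a = j + dq b ∧ pr a < pr b := by
  decide +kernel

theorem f3 : ∀ (i j : Fin 11) (b : Fin 5), ∃ a : Fin 5, i + dq a ∈ J j b ∧
    i + dq a ≠ j + dq b := by decide +kernel

theorem f3' : ∀ i : Fin 11, ∃ a : Fin 5, i + dq a ∈ K1 := by decide +kernel

theorem pr_inj : ∀ a b : Fin 5, pr a = pr b → a = b := by decide

theorem kap_mem : ∀ (j : Fin 11) (b : Fin 5), j + dq b ∈ J j b := by decide +kernel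

theorem K1_sub : ∀ (j : Fin 11) (b : Fin 5) (c : Fin 11), c ∈ K1 → c ∈ J j b := by
  decide +kernel

theorem K0_sub : ∀ (j : Fin 11) (b : Fin 5) (c : Fin 11), j + dq b ∈ K0 → c ∈ K0 → c ∈ J j b := by
  decide +kernel

theorem J_card : ∀ (j : Fin 11) (b : Fin 5), (J j b).card = 5 := by decide +kernel

/-- sign -/
def sgn (c : Fin 11) : ℤ := if c = 3 ∨ c = 4 then 1 else -1

/-- for two values of `κ` of which at most one point of `K0` arises, there are members of both signs -/
theorem f6 : ∀ (k k' : Fin 11), ¬ (k ≠ k' ∧ k ∈ K0 ∧ k' ∈ K0) →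
    (∃ c ∈ K1, c ≠ k ∧ c ≠ k' ∧ sgn c = 1) ∧ (∃ c ∈ K1, c ≠ k ∧ c ≠ k' ∧ sgn c = -1) := by
  decide +kernel

section

variable {e N : ℕ}

abbrev P (e N : ℕ) := Pos (Fin 11) (Fin 5 ⊕ Fin e) N (ES e)

/-- the point `κ` of a block; for the private blocks the value `0` (which is not in `K0`) -/
def kap (j : Fin 11) : Fin 5 ⊕ Fin e → Fin 11
  | .inl b => j + dq b
  | .inr _ => 0

/-- the block is in the middle -/
def mid (c j : Fin 11) : Fin 5 ⊕ Fin e → Prop
  | .inl b => j + dq b = c
  | .inr _ => False

/-- the points in which a block is used -/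
def inJ (c j : Fin 11) : Fin 5 ⊕ Fin e → Prop
  | .inl b => c ∈ J j b
  | .inr _ => c ∈ K1

/-- index number of a block -/
def prr : Fin 5 ⊕ Fin e → ℕ
  | .inl b => pr b
  | .inr _ => 0

/-- the carriers of the members given by the points -/
def inC (c : Fin 11) : P e N → Prop
  | .x i _ => i + dq (idx i c) = c
  | .y j a _ => inJ c j a

noncomputable def g (p : Fin 11 × (Fin 5 ⊕ Fin e)) : ℤ := ((Fintype.equivFin _ p : ℕ) : ℤ)

theorem g_inj (p q : Fin 11 × (Fin 5 ⊕ Fin e)) (h : g p = g q) : p = q := by
  unfold g at h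
  have h1 := Fin.ext (Int.ofNat.inj h)
  exact (Fintype.equivFin _).injective h1

open Classical in
/-- keys -/
noncomputable def kc (c : Fin 11) : P e N → ℕ ×ₗ (ℤ ×ₗ ℕ)
  | .x i v => toLex (0, toLex ((pr (idx i c) : ℤ), 2 * (v (.inl (idx i c)) : ℕ) + 1))
  | .y j a q => if mid c j a then toLex (0, toLex ((prr a : ℤ), 2 * (q : ℕ)))
      else toLex (1, toLex (sgn c * g (j, a), (q : ℕ)))

/-- the carriers of the private members -/
def inD (i : Fin 11) (s : Fin e) : P e N → Prop
  | .x i' _ => i' = i
  | .y i' a _ => i' = i ∧ a = .inr s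

def kd (s : Fin e) : P e N → ℕ
  | .x _ v => 2 * (v (.inr s) : ℕ) + 1
  | .y _ _ q => 2 * (q : ℕ)

theorem lt1 {a b : ℕ} {r s : ℤ ×ₗ ℕ} (h : a < b) : (toLex (a, r) : ℕ ×ₗ (ℤ ×ₗ ℕ)) < toLex (b, s) :=
  Prod.Lex.toLex_lt_toLex.2 (Or.inl h)

theorem lt2 {a : ℕ} {u v : ℤ} {r s : ℕ} (h : u < v) :
    (toLex (a, toLex (u, r)) : ℕ ×ₗ (ℤ ×ₗ ℕ)) < toLex (a, toLex (v, s)) :=
  Prod.Lex.toLex_lt_toLex.2 (Or.inr ⟨rfl, Prod.Lex.toLex_lt_toLex.2 (Or.inl h)⟩)

theorem lt3 {a : ℕ} {u : ℤ} {r s : ℕ} (h : r < s) :
    (toLex (a, toLex (u, r)) : ℕ ×ₗ (ℤ ×ₗ ℕ)) < toLex (a, toLex (u, s)) :=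
  Prod.Lex.toLex_lt_toLex.2 (Or.inr ⟨rfl, Prod.Lex.toLex_lt_toLex.2 (Or.inr ⟨rfl, h⟩)⟩)

theorem le3 {a : ℕ} {u : ℤ} {r s : ℕ} (h : r ≤ s) :
    (toLex (a, toLex (u, r)) : ℕ ×ₗ (ℤ ×ₗ ℕ)) ≤ toLex (a, toLex (u, s)) := by
  rcases h.lt_or_eq with h | h
  · exact (lt3 h).le
  · rw [h]

theorem kc_mono (c : Fin 11) (p q : P e N) (hp : inC c p) (hq : inC c q) (h : p ≤ q) :
    kc c p ≤ kc c q := by
  cases p with
  | x i v =>
    cases q with
    | x j w =>
      obtain ⟨rfl, h⟩ := h
      simp only [kc]
      apply le3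
      have := h (.inl (idx i c))
      have h' : (v (.inl (idx i c)) : ℕ) ≤ w (.inl (idx i c)) := this
      omega
    | y j a r =>
      simp only [kc]
      split_ifs with hm
      · cases a with
        | inr s => exact hm.elim
        | inl b =>
          have hm' : j + dq b = c := hm
          have hp' : i + dq (idx i c) = c := hp
          rcases h with ⟨h3, h4⟩ | ⟨h3, h4⟩
          · subst h3
            have h5 : idx i c = b := by rw [← hm', idx_dq]
            rw [h5]
            have h4' : (v (.inl b) : ℕ) < r := h4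
            refine (lt3 ?_).le
            omega
          · have h5 : pr (idx i c) < pr b := h4 _ (hp'.trans hm'.symm)
            refine (lt2 ?_).le
            simp only [prr]
            exact_mod_cast h5
      · exact (lt1 (by norm_num)).le
  | y i a r =>
    cases q with
    | x j w => exact h.elim
    | y j b s =>
      obtain ⟨rfl, rfl, h⟩ := h
      have h' : (r : ℕ) ≤ s := h
      simp only [kc]
      split_ifs with hm
      · apply le3
        omega
      · exact le3 h'

theorem kd_mono (i : Fin 11) (s : Fin e) (p q : P e N) (hp : inD i s p) (hq : inD i s q)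
    (h : p ≤ q) : kd s p ≤ kd s q := by
  cases p with
  | x i' v =>
    cases q with
    | x j w =>
      obtain ⟨rfl, h⟩ := h
      have h' : (v (.inr s) : ℕ) ≤ w (.inr s) := h (.inr s)
      simp only [kd]
      omega
    | y j a r =>
      obtain ⟨rfl, rfl⟩ := hq
      have hp' : i' = j := hp
      rcases h with ⟨h3, h4⟩ | ⟨h3, h4⟩
      · have h4' : (v (.inr s) : ℕ) < r := h4
        simp only [kd]
        omega
      · exact (h3 hp').elim
  | y i' a r =>
    cases q with
    | x j w => exact h.elim
    | y j b t =>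
      obtain ⟨rfl, rfl, h⟩ := h
      have h' : (r : ℕ) ≤ t := h
      simp only [kd]
      omega

/-- some member given by a point has `p` before `q` -/
def Cb (p q : P e N) : Prop := ∃ c, inC c p ∧ inC c q ∧ kc c p < kc c q

/-- some private member has `p` before `q` -/
def Db (p q : P e N) : Prop := ∃ i s, inD i s p ∧ inD i s q ∧ kd s p < kd s q

theorem inJ_K1 (c j : Fin 11) (a : Fin 5 ⊕ Fin e) (h : c ∈ K1) : inJ c j a := by
  cases a with
  | inl b => exact K1_sub j b c h
  | inr s => exact h

theorem not_mid {c j : Fin 11} {a : Fin 5 ⊕ Fin e} (h : c ≠ kap j a) : ¬ mid c j a := by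
  cases a with
  | inl b => exact fun h' => h (Eq.symm h')
  | inr s => exact fun h' => h'

theorem cover (p q : P e N) (h : ¬ q ≤ p) : Cb p q ∨ Db p q := by
  classical
  cases p with
  | x i v =>
    cases q with
    | x j w =>
      by_cases hij : i = j
      · subst hij
        have h1 : ∃ a, v a < w a := by
          by_contra hcon
          push Not at hcon
          exact h ⟨rfl, hcon⟩
        obtain ⟨a, ha⟩ := h1
        have ha' : (v a : ℕ) < w a := ha
        cases a with
        | inl b =>
          left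
          refine ⟨i + dq b, ?_, ?_, ?_⟩
          · show i + dq (idx i (i + dq b)) = i + dq b
            rw [idx_dq]
          · show i + dq (idx i (i + dq b)) = i + dq b
            rw [idx_dq]
          · simp only [kc, idx_dq]
            apply lt3
            omega
        | inr s =>
          right
          refine ⟨i, s, rfl, rfl, ?_⟩
          simp only [kd]
          omega
      · left
        obtain ⟨a, b, hab, hpr⟩ := f2 i j hij
        refine ⟨i + dq a, ?_, ?_, ?_⟩
        · show i + dq (idx i (i + dq a)) = i + dq a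
          rw [idx_dq]
        · show j + dq (idx j (i + dq a)) = i + dq a
          rw [hab, idx_dq]
        · simp only [kc]
          rw [idx_dq, hab, idx_dq]
          apply lt2
          exact_mod_cast hpr
    | y j a r =>
      left
      cases a with
      | inl b =>
        obtain ⟨a, ha1, ha2⟩ := f3 i j b
        refine ⟨i + dq a, ?_, ha1, ?_⟩
        · show i + dq (idx i (i + dq a)) = i + dq a
          rw [idx_dq]
        · have hm : ¬ mid (i + dq a) j (.inl b : Fin 5 ⊕ Fin e) := fun h' => ha2 (Eq.symm h')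
          simp only [kc, if_neg hm]
          exact lt1 (by norm_num)
      | inr s =>
        obtain ⟨a, ha1⟩ := f3' i
        refine ⟨i + dq a, ?_, ha1, ?_⟩
        · show i + dq (idx i (i + dq a)) = i + dq a
          rw [idx_dq]
        · have hm : ¬ mid (i + dq a) j (.inr s : Fin 5 ⊕ Fin e) := fun h' => h'
          simp only [kc, if_neg hm]
          exact lt1 (by norm_num)
  | y j a r =>
    cases q with
    | x i v =>
      have h' : ¬ ((i = j ∧ v a < r) ∨ (i ≠ j ∧ ES e i j a)) := h
      push Not at h'
      obtain ⟨h1, h2⟩ := h'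
      by_cases hij : i = j
      · have h3 : (r : ℕ) ≤ v a := h1 hij
        subst hij
        cases a with
        | inl b =>
          left
          refine ⟨i + dq b, kap_mem i b, ?_, ?_⟩
          · show i + dq (idx i (i + dq b)) = i + dq b
            rw [idx_dq]
          · have hm : mid (i + dq b) i (.inl b : Fin 5 ⊕ Fin e) := rfl
            simp only [kc, if_pos hm, idx_dq, prr]
            apply lt3
            omega
        | inr s =>
          right
          refine ⟨i, s, ⟨rfl, rfl⟩, rfl, ?_⟩
          simp only [kd]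
          omega
      · have h3 := h2 hij
        cases a with
        | inr s => exact (h3 trivial).elim
        | inl b =>
          have h4 : ¬ ∀ a : Fin 5, i + dq a = j + dq b → pr a < pr b := h3
          push Not at h4
          obtain ⟨a', ha1, ha2⟩ := h4
          have h5 : pr b < pr a' := by
            refine lt_of_le_of_ne ha2 (fun he => ?_)
            have h6 := pr_inj _ _ he
            rw [h6] at ha1
            exact hij (add_right_cancel ha1)
          left
          refine ⟨j + dq b, kap_mem j b, ?_, ?_⟩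
          · show i + dq (idx i (j + dq b)) = j + dq b
            rw [← ha1, idx_dq]
          · have hm : mid (j + dq b) j (.inl b : Fin 5 ⊕ Fin e) := rfl
            simp only [kc, if_pos hm, prr]
            rw [← ha1, idx_dq]
            apply lt2
            exact_mod_cast h5
    | y j' a' r' =>
      left
      by_cases hja : j = j' ∧ a = a'
      · obtain ⟨rfl, rfl⟩ := hja
        have h1 : (r : ℕ) < r' := by
          by_contra hcon
          push Not at hcon
          exact h ⟨rfl, rfl, hcon⟩
        obtain ⟨⟨c, hc1, hc2, _, _⟩, _⟩ := f6 (kap j a) (kap j a) (fun h' => h'.1 rfl)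
        refine ⟨c, inJ_K1 c j a hc1, inJ_K1 c j a hc1, ?_⟩
        simp only [kc, if_neg (not_mid hc2)]
        exact lt3 h1
      · by_cases hk : kap j a ≠ kap j' a' ∧ kap j a ∈ K0 ∧ kap j' a' ∈ K0
        · obtain ⟨hk1, hk2, hk3⟩ := hk
          cases a with
          | inr s => exact absurd hk2 (show (0 : Fin 11) ∉ K0 by decide)
          | inl b =>
            cases a' with
            | inr s => exact absurd hk3 (show (0 : Fin 11) ∉ K0 by decide)
            | inl b' =>
              refine ⟨j + dq b, kap_mem j b, K0_sub j' b' _ hk3 hk2, ?_⟩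
              have hm : mid (j + dq b) j (.inl b : Fin 5 ⊕ Fin e) := rfl
              have hm' : ¬ mid (j + dq b) j' (.inl b' : Fin 5 ⊕ Fin e) := fun h' => hk1 (Eq.symm h')
              simp only [kc, if_pos hm, if_neg hm']
              exact lt1 (by norm_num)
        · obtain ⟨⟨c, hc1, hc2, hc3, hc4⟩, ⟨c', hc1', hc2', hc3', hc4'⟩⟩ := f6 _ _ hk
          have hne : g (j, a) ≠ g (j', a') := by
            intro hg
            have := g_inj _ _ hg
            exact hja ⟨congrArg Prod.fst this, congrArg Prod.snd this⟩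
          rcases lt_or_gt_of_ne hne with hlt | hgt
          · refine ⟨c, inJ_K1 c j a hc1, inJ_K1 c j' a' hc1, ?_⟩
            simp only [kc, if_neg (not_mid hc2), if_neg (not_mid hc3), hc4]
            apply lt2
            linarith
          · refine ⟨c', inJ_K1 c' j a hc1', inJ_K1 c' j' a' hc1', ?_⟩
            simp only [kc, if_neg (not_mid hc2'), if_neg (not_mid hc3'), hc4']
            apply lt2
            linarith

end

end SREAL

open SREAL in
theorem t_sreal (h1 : S_IDX) (h2 : S_KEY) : S_SREAL := by
  classical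
  intro e N
  have hC : ∀ c : Fin 11, ∃ L : PLE (P e N), L.carrier = Finset.univ.filter (fun p => inC c p) ∧
      ∀ p q, inC c p → inC c q → kc c p < kc c q → L.Before p q := by
    intro c
    obtain ⟨L, hL1, hL2⟩ := h2 (P e N) (ℕ ×ₗ (ℤ ×ₗ ℕ)) inferInstance inferInstance inferInstance
      (Finset.univ.filter (fun p => inC c p)) (kc c) (fun x hx y hy hxy =>
        kc_mono c x y (Finset.mem_filter.1 hx).2 (Finset.mem_filter.1 hy).2 hxy.le)
    exact ⟨L, hL1, fun p q hp hq h => hL2 p (Finset.mem_filter.2 ⟨Finset.mem_univ _, hp⟩) q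
      (Finset.mem_filter.2 ⟨Finset.mem_univ _, hq⟩) h⟩
  have hD : ∀ t : Fin 11 × Fin e, ∃ L : PLE (P e N),
      L.carrier = Finset.univ.filter (fun p => inD t.1 t.2 p) ∧
      ∀ p q, inD t.1 t.2 p → inD t.1 t.2 q → kd t.2 p < kd t.2 q → L.Before p q := by
    intro t
    obtain ⟨L, hL1, hL2⟩ := h2 (P e N) ℕ inferInstance inferInstance inferInstance
      (Finset.univ.filter (fun p => inD t.1 t.2 p)) (kd t.2) (fun x hx y hy hxy =>
        kd_mono t.1 t.2 x y (Finset.mem_filter.1 hx).2 (Finset.mem_filter.1 hy).2 hxy.le)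
    exact ⟨L, hL1, fun p q hp hq h => hL2 p (Finset.mem_filter.2 ⟨Finset.mem_univ _, hp⟩) q
      (Finset.mem_filter.2 ⟨Finset.mem_univ _, hq⟩) h⟩
  choose LC hLC1 hLC2 using hC
  choose LD hLD1 hLD2 using hD
  have hcov : ∀ p q : P e N, ¬ q ≤ p →
      ∃ k : Fin 11 ⊕ (Fin 11 × Fin e), (Sum.elim LC LD k).Before p q := by
    intro p q h
    rcases cover p q h with ⟨c, hp, hq, hk⟩ | ⟨i, s, hp, hq, hk⟩
    · exact ⟨Sum.inl c, hLC2 c p q hp hq hk⟩
    · exact ⟨Sum.inr (i, s), hLD2 (i, s) p q hp hq hk⟩
  refine h1 (P e N) inferInstance (Fin 11 ⊕ (Fin 11 × Fin e)) inferInstance (Sum.elim LC LD) (5 + e)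
    (fun p q h => hcov p q (not_le_of_gt h)) (fun p q _ h => hcov p q h) ?_
  intro p s hs
  have hsC : ∀ c, Sum.inl c ∈ s → inC c p := by
    intro c hc
    have := hs _ hc
    rw [Sum.elim_inl, hLC1] at this
    exact (Finset.mem_filter.1 this).2
  have hsD : ∀ t, Sum.inr t ∈ s → inD t.1 t.2 p := by
    intro t ht
    have := hs _ ht
    rw [Sum.elim_inr, hLD1] at this
    exact (Finset.mem_filter.1 this).2
  cases p with
  | x i v =>
    have hsub : s ⊆ (Finset.univ : Finset (Fin 5 ⊕ Fin e)).image
        (Sum.elim (fun a => Sum.inl (i + dq a)) (fun t => Sum.inr (i, t))) := by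
      intro k hk
      rw [Finset.mem_image]
      cases k with
      | inl c =>
        have h3 : i + dq (idx i c) = c := hsC c hk
        exact ⟨Sum.inl (idx i c), Finset.mem_univ _, by simp [h3]⟩
      | inr t =>
        have h3 : i = t.1 := hsD t hk
        exact ⟨Sum.inr t.2, Finset.mem_univ _, by simp [h3]⟩
    refine (Finset.card_le_card hsub).trans (Finset.card_image_le.trans ?_)
    simp
  | y j a r =>
    cases a with
    | inl b =>
      have hsub : s ⊆ (J j b).image Sum.inl := by
        intro k hk
        rw [Finset.mem_image]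
        cases k with
        | inl c => exact ⟨c, hsC c hk, rfl⟩
        | inr t =>
          have h3 := (hsD t hk).2
          exact absurd h3 (by simp)
      refine (Finset.card_le_card hsub).trans (Finset.card_image_le.trans ?_)
      rw [J_card]
      omega
    | inr t =>
      have hsub : s ⊆ insert (Sum.inr (j, t)) (K1.image Sum.inl) := by
        intro k hk
        rw [Finset.mem_insert, Finset.mem_image]
        cases k with
        | inl c => exact Or.inr ⟨c, hsC c hk, rfl⟩
        | inr u =>
          left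
          obtain ⟨h3, h4⟩ := hsD u hk
          have h4' : t = u.2 := by simpa using h4
          rw [h3, h4']
      refine (Finset.card_le_card hsub).trans ((Finset.card_insert_le _ _).trans ?_)
      have h5 : (K1.image (Sum.inl : Fin 11 → Fin 11 ⊕ (Fin 11 × Fin e))).card ≤ 4 :=
        Finset.card_image_le.trans (by decide)
      omega

end Pool.Agent.H814.LD
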