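import Pool.Agent.H814.LD.Defs4

/-!
# Local realizers of the poset for frequency four
-/

set_option autoImplicit false

namespace Pool.Agent.H814.LD

namespace SREAL4

def K0 : Finset (Fin 7) := {0, 3, 5, 6}

def H0 : Finset (Fin 7) := {3, 5, 6}

/-- the index `a` with `i + dq4 a = c` (if there is one) -/
def idx (i c : Fin 7) : Fin 4 :=
  if i = c then 0 else if i + 3 = c then 1 else if i + 5 = c then 2 else 3

/-- the points in which the blocks `y j b` are used -/
def J (j : Fin 7) (b : Fin 4) : Finset (Fin 7) :=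
  if j + dq4 b ∈ K0 then K0 else insert (j + dq4 b) H0

/-- the class of a block -/
def cls (j : Fin 7) (b : Fin 4) : ℕ := if j + dq4 b ∈ H0 then 2 else 1

theorem idx_dq : ∀ (i : Fin 7) (a : Fin 4), idx i (i + dq4 a) = a := by decide

theorem f3 : ∀ (i j : Fin 7) (b : Fin 4), ∃ a : Fin 4, i + dq4 a ∈ J j b ∧
    i + dq4 a ≠ j + dq4 b := by decide +kernel

theorem pr_inj : ∀ a b : Fin 4, pr4 a = pr4 b → a = b := by decide

theorem kap_mem : ∀ (j : Fin 7) (b : Fin 4), j + dq4 b ∈ J j b := by decide +kernel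

theorem H0_sub : ∀ (j : Fin 7) (b : Fin 4) (c : Fin 7), c ∈ H0 → c ∈ J j b := by
  decide +kernel

theorem K0_sub : ∀ (j : Fin 7) (b : Fin 4) (c : Fin 7), j + dq4 b ∈ H0 → c ∈ K0 → c ∈ J j b := by
  decide +kernel

theorem J_card : ∀ (j : Fin 7) (b : Fin 4), (J j b).card = 4 := by decide +kernel

/-- sign -/
def sgn (c : Fin 7) : ℤ := if c = 3 ∨ c = 6 then 1 else -1

/-- members of both signs, the same `κ` -/
theorem f6 : ∀ k : Fin 7, k ∈ H0 →
    (∃ c ∈ K0, c ≠ k ∧ sgn c = 1) ∧ (∃ c ∈ K0, c ≠ k ∧ sgn c = -1) := by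
  decide +kernel

/-- members of both signs, both `κ` not in `H0` -/
theorem f7 : ∀ k k' : Fin 7, k ∉ H0 → k' ∉ H0 →
    (∃ c ∈ H0, c ≠ k ∧ c ≠ k' ∧ sgn c = 1) ∧ (∃ c ∈ H0, c ≠ k ∧ c ≠ k' ∧ sgn c = -1) := by
  decide +kernel

/-- a member of `H0` -/
theorem f8 : ∀ k k' : Fin 7, k ∉ H0 → k' ∈ H0 → ∃ c ∈ H0, c ≠ k ∧ c ≠ k' := by
  decide +kernel

section

variable {N : ℕ}

abbrev P (N : ℕ) := Pos (Fin 7) (Fin 4) N E4

/-- the carriers of the members -/
def inC (c : Fin 7) : P N → Prop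
  | .x i _ => i + dq4 (idx i c) = c
  | .y j a _ => c ∈ J j a

noncomputable def g (p : Fin 7 × Fin 4) : ℤ := ((Fintype.equivFin _ p : ℕ) : ℤ)

theorem g_inj (p q : Fin 7 × Fin 4) (h : g p = g q) : p = q := by
  unfold g at h
  have h1 := Fin.ext (Int.ofNat.inj h)
  exact (Fintype.equivFin _).injective h1

open Classical in
/-- keys -/
noncomputable def kc (c : Fin 7) : P N → ℕ ×ₗ (ℤ ×ₗ ℕ)
  | .x i v => toLex (0, toLex ((pr4 (idx i c) : ℤ), 2 * (v (idx i c) : ℕ) + 1))
  | .y j a q => if j + dq4 a = c then toLex (0, toLex ((pr4 a : ℤ), 2 * (q : ℕ)))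
      else toLex (cls j a, toLex (sgn c * g (j, a), (q : ℕ)))

theorem lt1 {a b : ℕ} {r s : ℤ ×ₗ ℕ} (h : a < b) : (toLex (a, r) : ℕ ×ₗ (ℤ ×ₗ ℕ)) < toLex (b, s) :=
  Prod.Lex.toLex_lt_toLex.2 (Or.inl h)

theorem lt2 {a : ℕ} {u v : ℤ} {r s : ℕ} (h : u < v) :
    (toLex (a, toLex (u, r)) : ℕ ×ₗ (ℤ ×ₗ ℕ)) < toLex (a, toLex (v, s)) :=
  Prod.Lex.toLex_lt_toLex.2 (Or.inr ⟨rfl, Prod.Lex.toLex_lt_toLex.2 (Or.inl h)⟩)

theorem lt3 {a : ℕ} {u : ℤ} {r s : ℕ} (h : r < s) :
    (toLex (a, toLex (u, r)) : ℕ ×ₗ (ℤ ×ₗ ℕ)) < toLex (a, toLex (u, s)) :=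
  Prod.Lex.toLex_lt_toLex.2 (Or.inr ⟨rfl, Prod.Lex.toLex_lt_toLex.2 (Or.inr ⟨rfl, h⟩)⟩)

theorem le3 {a : ℕ} {u : ℤ} {r s : ℕ} (h : r ≤ s) :
    (toLex (a, toLex (u, r)) : ℕ ×ₗ (ℤ ×ₗ ℕ)) ≤ toLex (a, toLex (u, s)) := by
  rcases h.lt_or_eq with h | h
  · exact (lt3 h).le
  · rw [h]

theorem cls_pos (j : Fin 7) (b : Fin 4) : 0 < cls j b := by
  unfold cls
  split_ifs <;> norm_num

theorem cls_in {j : Fin 7} {b : Fin 4} (h : j + dq4 b ∈ H0) : cls j b = 2 := if_pos h

theorem cls_out {j : Fin 7} {b : Fin 4} (h : j + dq4 b ∉ H0) : cls j b = 1 := if_neg h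

theorem kc_mono (c : Fin 7) (p q : P N) (hp : inC c p) (hq : inC c q) (h : p ≤ q) :
    kc c p ≤ kc c q := by
  cases p with
  | x i v =>
    cases q with
    | x j w =>
      obtain ⟨rfl, h⟩ := h
      simp only [kc]
      apply le3
      have := h (idx i c)
      have h' : (v (idx i c) : ℕ) ≤ w (idx i c) := this
      omega
    | y j b r =>
      simp only [kc]
      split_ifs with hm
      · have hp' : i + dq4 (idx i c) = c := hp
        rcases h with ⟨h3, h4⟩ | ⟨h3, h4⟩
        · subst h3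
          have h5 : idx i c = b := by rw [← hm, idx_dq]
          rw [h5]
          have h4' : (v b : ℕ) < r := h4
          refine (lt3 ?_).le
          omega
        · have h5 : pr4 (idx i c) < pr4 b := h4 _ (hp'.trans hm.symm)
          refine (lt2 ?_).le
          exact_mod_cast h5
      · exact (lt1 (cls_pos j b)).le
  | y i a r =>
    cases q with
    | x j w => exact h.elim
    | y j b s =>
      obtain ⟨rfl, rfl, h⟩ := h
      have h' : (r : ℕ) ≤ s := h
      simp only [kc]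
      split_ifs with hm
      · apply le3
        omega
      · exact le3 h'

/-- some member has `p` before `q` -/
def Cb (p q : P N) : Prop := ∃ c, inC c p ∧ inC c q ∧ kc c p < kc c q

theorem kc_mid (j : Fin 7) (b : Fin 4) (q : Fin N) :
    kc (j + dq4 b) (.y j b q : P N) = toLex (0, toLex ((pr4 b : ℤ), 2 * (q : ℕ))) := by
  simp only [kc, if_true]

theorem kc_top {c j : Fin 7} {b : Fin 4} (q : Fin N) (h : c ≠ j + dq4 b) :
    kc c (.y j b q : P N) = toLex (cls j b, toLex (sgn c * g (j, b), (q : ℕ))) := by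
  simp only [kc, if_neg (Ne.symm h)]

theorem both {j j' : Fin 7} {a a' : Fin 4} (r r' : Fin N) (hja : ¬ (j = j' ∧ a = a'))
    (hcl : cls j a = cls j' a')
    (h1 : ∃ c, c ∈ J j a ∧ c ∈ J j' a' ∧ c ≠ j + dq4 a ∧ c ≠ j' + dq4 a' ∧ sgn c = 1)
    (h2 : ∃ c, c ∈ J j a ∧ c ∈ J j' a' ∧ c ≠ j + dq4 a ∧ c ≠ j' + dq4 a' ∧ sgn c = -1) :
    Cb (.y j a r : P N) (.y j' a' r') := by
  have hne : g (j, a) ≠ g (j', a') := by
    intro hg
    have := g_inj _ _ hg
    exact hja ⟨congrArg Prod.fst this, congrArg Prod.snd this⟩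
  rcases lt_or_gt_of_ne hne with hlt | hgt
  · obtain ⟨c, e1, e2, e3, e4, e5⟩ := h1
    refine ⟨c, e1, e2, ?_⟩
    rw [kc_top r e3, kc_top r' e4, hcl, e5]
    apply lt2
    linarith
  · obtain ⟨c, e1, e2, e3, e4, e5⟩ := h2
    refine ⟨c, e1, e2, ?_⟩
    rw [kc_top r e3, kc_top r' e4, hcl, e5]
    apply lt2
    linarith

theorem cover (p q : P N) (h : ¬ q ≤ p) : Cb p q := by
  classical
  cases p with
  | x i v =>
    cases q with
    | x j w =>
      by_cases hij : i = j
      · subst hij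
        have h1 : ∃ a, v a < w a := by
          by_contra hcon
          push Not at hcon
          exact h ⟨rfl, hcon⟩
        obtain ⟨b, ha⟩ := h1
        have ha' : (v b : ℕ) < w b := ha
        refine ⟨i + dq4 b, ?_, ?_, ?_⟩
        · show i + dq4 (idx i (i + dq4 b)) = i + dq4 b
          rw [idx_dq]
        · show i + dq4 (idx i (i + dq4 b)) = i + dq4 b
          rw [idx_dq]
        · simp only [kc, idx_dq]
          apply lt3
          omega
      · obtain ⟨a, b, hab, hpr⟩ := des4_u i j hij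
        refine ⟨i + dq4 a, ?_, ?_, ?_⟩
        · show i + dq4 (idx i (i + dq4 a)) = i + dq4 a
          rw [idx_dq]
        · show j + dq4 (idx j (i + dq4 a)) = i + dq4 a
          rw [hab, idx_dq]
        · simp only [kc]
          rw [idx_dq, hab, idx_dq]
          apply lt2
          exact_mod_cast hpr
    | y j b r =>
      obtain ⟨a, ha1, ha2⟩ := f3 i j b
      refine ⟨i + dq4 a, ?_, ha1, ?_⟩
      · show i + dq4 (idx i (i + dq4 a)) = i + dq4 a
        rw [idx_dq]
      · rw [kc_top r ha2]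
        exact lt1 (cls_pos j b)
  | y j b r =>
    cases q with
    | x i v =>
      have h' : ¬ ((i = j ∧ v b < r) ∨ (i ≠ j ∧ E4 i j b)) := h
      push Not at h'
      obtain ⟨h1, h2⟩ := h'
      by_cases hij : i = j
      · have h3 : (r : ℕ) ≤ v b := h1 hij
        subst hij
        refine ⟨i + dq4 b, kap_mem i b, ?_, ?_⟩
        · show i + dq4 (idx i (i + dq4 b)) = i + dq4 b
          rw [idx_dq]
        · rw [kc_mid]
          simp only [kc, idx_dq]
          apply lt3
          omega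
      · have h3 := h2 hij
        have h4 : ¬ ∀ a : Fin 4, i + dq4 a = j + dq4 b → pr4 a < pr4 b := h3
        push Not at h4
        obtain ⟨a', ha1, ha2⟩ := h4
        have h5 : pr4 b < pr4 a' := by
          refine lt_of_le_of_ne ha2 (fun he => ?_)
          have h6 := pr_inj _ _ he
          rw [h6] at ha1
          exact hij (add_right_cancel ha1)
        refine ⟨j + dq4 b, kap_mem j b, ?_, ?_⟩
        · show i + dq4 (idx i (j + dq4 b)) = j + dq4 b
          rw [← ha1, idx_dq]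
        · rw [kc_mid]
          simp only [kc]
          rw [← ha1, idx_dq]
          apply lt2
          exact_mod_cast h5
    | y j' b' r' =>
      by_cases hja : j = j' ∧ b = b'
      · obtain ⟨rfl, rfl⟩ := hja
        have h1 : (r : ℕ) < r' := by
          by_contra hcon
          push Not at hcon
          exact h ⟨rfl, rfl, hcon⟩
        obtain ⟨a, ha1, ha2⟩ := f3 j j b
        refine ⟨j + dq4 a, ha1, ha1, ?_⟩
        rw [kc_top r ha2, kc_top r' ha2]
        exact lt3 h1
      · by_cases hk : j + dq4 b ∈ H0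
        · by_cases hk' : j' + dq4 b' ∈ H0
          · by_cases hkk : j + dq4 b = j' + dq4 b'
            · obtain ⟨⟨c, hc1, hc2, hc3⟩, ⟨c', hc1', hc2', hc3'⟩⟩ := f6 _ hk
              refine both r r' hja ((cls_in hk).trans (cls_in hk').symm)
                ⟨c, K0_sub j b c hk hc1, K0_sub j' b' c hk' hc1, hc2, ?_, hc3⟩
                ⟨c', K0_sub j b c' hk hc1', K0_sub j' b' c' hk' hc1', hc2', ?_, hc3'⟩
              · rw [← hkk]
                exact hc2
              · rw [← hkk]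
                exact hc2'
            · refine ⟨j + dq4 b, kap_mem j b, H0_sub j' b' _ hk, ?_⟩
              rw [kc_mid, kc_top r' hkk]
              exact lt1 (cls_pos j' b')
          · have hkk : j + dq4 b ≠ j' + dq4 b' := fun he => hk' (he ▸ hk)
            refine ⟨j + dq4 b, kap_mem j b, H0_sub j' b' _ hk, ?_⟩
            rw [kc_mid, kc_top r' hkk]
            exact lt1 (cls_pos j' b')
        · by_cases hk' : j' + dq4 b' ∈ H0
          · obtain ⟨c, hc1, hc2, hc3⟩ := f8 _ _ hk hk'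
            refine ⟨c, H0_sub j b c hc1, H0_sub j' b' c hc1, ?_⟩
            rw [kc_top r hc2, kc_top r' hc3, cls_out hk, cls_in hk']
            exact lt1 (by norm_num)
          · obtain ⟨⟨c, hc1, hc2, hc3, hc4⟩, ⟨c', hc1', hc2', hc3', hc4'⟩⟩ := f7 _ _ hk hk'
            exact both r r' hja ((cls_out hk).trans (cls_out hk').symm)
              ⟨c, H0_sub j b c hc1, H0_sub j' b' c hc1, hc2, hc3, hc4⟩
              ⟨c', H0_sub j b c' hc1', H0_sub j' b' c' hc1', hc2', hc3', hc4'⟩

end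

end SREAL4

open SREAL4 in
theorem t_sreal4 (h1 : S_IDX) (h2 : S_KEY) : S_SREAL4 := by
  classical
  intro N
  have hC : ∀ c : Fin 7, ∃ L : PLE (P N), L.carrier = Finset.univ.filter (fun p => inC c p) ∧
      ∀ p q, inC c p → inC c q → kc c p < kc c q → L.Before p q := by
    intro c
    obtain ⟨L, hL1, hL2⟩ := h2 (P N) (ℕ ×ₗ (ℤ ×ₗ ℕ)) inferInstance inferInstance inferInstance
      (Finset.univ.filter (fun p => inC c p)) (kc c) (fun x hx y hy hxy =>
        kc_mono c x y (Finset.mem_filter.1 hx).2 (Finset.mem_filter.1 hy).2 hxy.le)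
    exact ⟨L, hL1, fun p q hp hq h => hL2 p (Finset.mem_filter.2 ⟨Finset.mem_univ _, hp⟩) q
      (Finset.mem_filter.2 ⟨Finset.mem_univ _, hq⟩) h⟩
  choose LC hLC1 hLC2 using hC
  have hcov : ∀ p q : P N, ¬ q ≤ p → ∃ k : Fin 7, (LC k).Before p q := by
    intro p q h
    obtain ⟨c, hp, hq, hk⟩ := cover p q h
    exact ⟨c, hLC2 c p q hp hq hk⟩
  refine h1 (P N) inferInstance (Fin 7) inferInstance LC 4
    (fun p q h => hcov p q (not_le_of_gt h)) (fun p q _ h => hcov p q h) ?_
  intro p s hs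
  have hsC : ∀ c ∈ s, inC c p := by
    intro c hc
    have := hs _ hc
    rw [hLC1] at this
    exact (Finset.mem_filter.1 this).2
  cases p with
  | x i v =>
    have hsub : s ⊆ (Finset.univ : Finset (Fin 4)).image (fun a => i + dq4 a) := by
      intro c hk
      rw [Finset.mem_image]
      have h3 : i + dq4 (idx i c) = c := hsC c hk
      exact ⟨idx i c, Finset.mem_univ _, h3⟩
    refine (Finset.card_le_card hsub).trans (Finset.card_image_le.trans ?_)
    simp
  | y j b r =>
    have hsub : s ⊆ J j b := fun c hc => hsC c hc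
    refine (Finset.card_le_card hsub).trans ?_
    rw [J_card]

end Pool.Agent.H814.LD
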