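import Pool.Agent.H814.LD.Defs

/-!
# Local dimension of disconnected posets: the upper bound (helper404)
-/

set_option autoImplicit false

namespace Pool.Agent.H814.LD

namespace UBaux

open Classical in
/-- a partial linear extension of a subset, as a partial linear extension of the whole poset -/
noncomputable def lift {α : Type} [PartialOrder α] (s : Set α) (P : PLE s) : PLE α where
  carrier := P.carrier.map ⟨Subtype.val, Subtype.val_injective⟩
  rank x := if h : x ∈ s then P.rank ⟨x, h⟩ else 0
  inj := by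
    intro x hx y hy h
    obtain ⟨a, ha, rfl⟩ := Finset.mem_map.1 hx
    obtain ⟨b, hb, rfl⟩ := Finset.mem_map.1 hy
    change (if h : (a : α) ∈ s then P.rank ⟨a, h⟩ else 0) =
      (if h : (b : α) ∈ s then P.rank ⟨b, h⟩ else 0) at h
    rw [dif_pos a.2, dif_pos b.2] at h
    exact congrArg Subtype.val (P.inj a ha b hb h)
  mono := by
    intro x hx y hy h
    obtain ⟨a, ha, rfl⟩ := Finset.mem_map.1 hx
    obtain ⟨b, hb, rfl⟩ := Finset.mem_map.1 hy
    change (if h : (a : α) ∈ s then P.rank ⟨a, h⟩ else 0) <
      (if h : (b : α) ∈ s then P.rank ⟨b, h⟩ else 0)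
    rw [dif_pos a.2, dif_pos b.2]
    exact P.mono a ha b hb h

theorem mem_lift {α : Type} [PartialOrder α] {s : Set α} {P : PLE s} {x : α}
    (h : x ∈ (lift s P).carrier) : ∃ hx : x ∈ s, (⟨x, hx⟩ : s) ∈ P.carrier := by
  obtain ⟨a, ha, rfl⟩ := Finset.mem_map.1 h
  exact ⟨a.2, ha⟩

open Classical in
theorem lift_before {α : Type} [PartialOrder α] {s : Set α} {P : PLE s} {a b : s}
    (h : P.Before a b) : (lift s P).Before (a : α) (b : α) := by
  refine ⟨Finset.mem_map.2 ⟨a, h.1, rfl⟩, Finset.mem_map.2 ⟨b, h.2.1, rfl⟩, ?_⟩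
  change (if h : (a : α) ∈ s then P.rank ⟨a, h⟩ else 0) <
    (if h : (b : α) ∈ s then P.rank ⟨b, h⟩ else 0)
  rw [dif_pos a.2, dif_pos b.2]
  exact h.2.2

open Classical in
theorem le_freq {α : Type} [PartialOrder α] {m : ℕ} (R : Fin m → PLE α) (x : α)
    (s : Finset (Fin m)) (h : ∀ k ∈ s, x ∈ (R k).carrier) : s.card ≤ freq R x := by
  unfold freq
  exact Finset.card_le_card fun k hk => Finset.mem_filter.2 ⟨Finset.mem_univ _, h k hk⟩

end UBaux

open UBaux

theorem t_ub (h1 : S_IDX) (h2 : S_KEY) : S_UB := by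
  classical
  intro α _ _ d H
  choose m R hR hf using H
  have : Finite (cg α).ConnectedComponent := Quot.finite _
  have : Fintype (cg α).ConnectedComponent := Fintype.ofFinite _
  obtain ⟨e, he⟩ : ∃ e : (cg α).ConnectedComponent → ℕ, ∀ C,
      e C = (Fintype.equivFin (cg α).ConnectedComponent C : ℕ) := ⟨_, fun _ => rfl⟩
  have hinj : ∀ C C', e C = e C' → C = C' := by
    intro C C' h
    rw [he, he] at h
    exact (Fintype.equivFin (cg α).ConnectedComponent).injective (Fin.ext h)
  have hlt : ∀ C, e C < Fintype.card (cg α).ConnectedComponent := by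
    intro C
    rw [he]
    exact (Fintype.equivFin (cg α).ConnectedComponent C).2
  have hsame : ∀ x y : α, x < y →
      (cg α).connectedComponentMk x = (cg α).connectedComponentMk y := fun x y h =>
    SimpleGraph.ConnectedComponent.sound (SimpleGraph.Adj.reachable (Or.inl h))
  obtain ⟨L1, hL1, hL1'⟩ := h2 α ℕ inferInstance inferInstance inferInstance Finset.univ
    (fun x => e ((cg α).connectedComponentMk x))
    (fun x _ y _ h => (congrArg e (hsame x y h)).le)
  obtain ⟨L2, hL2, hL2'⟩ := h2 α ℕ inferInstance inferInstance inferInstance Finset.univ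
    (fun x => Fintype.card (cg α).ConnectedComponent - e ((cg α).connectedComponentMk x))
    (fun x _ y _ h => (congrArg
      (fun C => Fintype.card (cg α).ConnectedComponent - e C) (hsame x y h)).le)
  refine h1 α inferInstance ((Σ C : (cg α).ConnectedComponent, Fin (m C)) ⊕ Bool) inferInstance
    (Sum.elim (fun p => lift p.1.supp (R p.1 p.2)) (fun b => cond b L1 L2)) (d + 2) ?_ ?_ ?_
  · intro x y hxy
    obtain ⟨k, hk⟩ := (hR ((cg α).connectedComponentMk y)).comp ⟨x, hsame x y hxy⟩ ⟨y, rfl⟩ hxy
    exact ⟨Sum.inl ⟨_, k⟩, lift_before hk⟩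
  · intro x y hxy hyx
    by_cases h : (cg α).connectedComponentMk x = (cg α).connectedComponentMk y
    · obtain ⟨k, hk⟩ := (hR ((cg α).connectedComponentMk y)).incomp ⟨x, h⟩ ⟨y, rfl⟩ hxy hyx
      exact ⟨Sum.inl ⟨_, k⟩, lift_before hk⟩
    · rcases lt_trichotomy (e ((cg α).connectedComponentMk x)) (e ((cg α).connectedComponentMk y))
        with h3 | h3 | h3
      · exact ⟨Sum.inr true, hL1' x (Finset.mem_univ _) y (Finset.mem_univ _) h3⟩
      · exact absurd (hinj _ _ h3) h
      · refine ⟨Sum.inr false, hL2' x (Finset.mem_univ _) y (Finset.mem_univ _) ?_⟩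
        have h4 := hlt ((cg α).connectedComponentMk x)
        change Fintype.card (cg α).ConnectedComponent - e ((cg α).connectedComponentMk x) <
          Fintype.card (cg α).ConnectedComponent - e ((cg α).connectedComponentMk y)
        omega
  · intro x s hs
    have h3 : s.toRight.card ≤ 2 := by
      have := Finset.card_le_univ s.toRight
      rwa [Fintype.card_bool] at this
    have h4 : s.toLeft.card ≤ d := by
      have hx0 : x ∈ ((cg α).connectedComponentMk x).supp := rfl
      refine le_trans ?_ (hf ((cg α).connectedComponentMk x) ⟨x, hx0⟩)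
      have h8 : s.toLeft ⊆ (Finset.univ.filter fun k => (⟨_, k⟩ :
          Σ C : (cg α).ConnectedComponent, Fin (m C)) ∈ s.toLeft).map
          (Function.Embedding.sigmaMk (β := fun C : (cg α).ConnectedComponent => Fin (m C))
            ((cg α).connectedComponentMk x)) := by
        rintro ⟨C, k⟩ hk
        obtain ⟨hx, h6⟩ := mem_lift (s := C.supp) (P := R C k) (hs _ (Finset.mem_toLeft.1 hk))
        obtain rfl : (cg α).connectedComponentMk x = C := hx
        exact Finset.mem_map.2 ⟨k, Finset.mem_filter.2 ⟨Finset.mem_univ _, hk⟩, rfl⟩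
      refine (Finset.card_le_card h8).trans ((Finset.card_map _).le.trans ?_)
      refine le_freq _ _ _ fun k hk => ?_
      exact (mem_lift (hs _ (Finset.mem_toLeft.1 (Finset.mem_filter.1 hk).2))).2
    have h5 := Finset.card_toLeft_add_card_toRight (u := s)
    omega

end Pool.Agent.H814.LD
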